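import Pool.Agent.J4H77.RK.Main

set_option autoImplicit false
set_option linter.all false

/-! The tail of the number of zeros near a point in a family whose traces of Frobenius have bounded means. -/

namespace Pool.Agent.J4H77.RK

open Finset Polynomial Pool.Agent.N430.BP Pool.Agent.N430.BP.FF Pool.Agent.N430.RT Pool.Agent.R410.NG

/-- a periodic family of monic polynomials of degree `n` -/
structure Fm {k : Type} [Field k] (F : k[X] → k[X][X]) (n : ℕ) : Prop where
  mon : ∀ c, (F c).Monic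
  deg : ∀ c, (F c).natDegree = n
  per : ∀ P c c' : k[X], P ∣ c - c' → (F c).map (Ideal.Quotient.mk (Ideal.span {P})) =
    (F c').map (Ideal.Quotient.mk (Ideal.span {P}))

section
variable {k : Type} [Field k] [Fintype k]

/-- the trace of the member `c` -/
noncomputable def YG (F : k[X] → k[X][X]) (P c : k[X]) : ℝ := trP (F c) 0 0 P

lemma YG_per {F : k[X] → k[X][X]} {n : ℕ} (hF : Fm F n) (P : k[X]) {c c' : k[X]} (h : P ∣ c - c') :
    YG F P c = YG F P c' := by
  simp only [YG, trP, pset, hF.per P c c' h]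

lemma YG_bound {F : k[X] → k[X][X]} {n : ℕ} (hF : Fm F n) (h3 : 3 ≤ n) (hodd : Odd n)
    {P : k[X]} (hm : P.Monic) (hP : Irreducible P) (c : k[X]) :
    |YG F P c| ≤ n * (rk k ^ P.natDegree)⁻¹ :=
  trP_bound (hF.mon c) (hF.deg c) h3 hodd hm hP 0 0

/-- the mean of the trace -/
noncomputable def muG (N : ℕ) (F : k[X] → k[X][X]) (P : k[X]) : ℝ :=
  mV N (fun v => YG F P v.2)

lemma muG_bound {F : k[X] → k[X][X]} {n : ℕ} (hF : Fm F n) (h3 : 3 ≤ n) (hodd : Odd n)
    {P : k[X]} (hm : P.Monic) (hP : Irreducible P) (N : ℕ) :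
    |muG N F P| ≤ n * (rk k ^ P.natDegree)⁻¹ := by
  unfold muG mV
  exact abs_mn_le fun v => YG_bound hF h3 hodd hm hP _

/-- the random variables -/
noncomputable def XG (N M : ℕ) (z : ℂ) (F : k[X] → k[X][X]) (P : k[X]) (v : k[X] × k[X]) : ℝ :=
  cM M z P.natDegree * ((P.natDegree : ℝ) * rk k ^ (2 * P.natDegree) *
    (YG F P v.2 - muG N F P))

/-- the deterministic part -/
noncomputable def DG (N M : ℕ) (z : ℂ) (F : k[X] → k[X][X]) : ℝ :=
  ∑ P ∈ II k M, cM M z P.natDegree * ((P.natDegree : ℝ) * rk k ^ (2 * P.natDegree) * muG N F P)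

lemma TG_split (N M : ℕ) (z : ℂ) (F : k[X] → k[X][X]) (c : k[X]) :
    TT (F c) M z (0, 0) = ∑ P ∈ II k M, XG N M z F P (0, c) + DG N M z F := by
  unfold DG
  rw [← Finset.sum_add_distrib, sum_II]
  unfold TT
  refine Finset.sum_congr rfl fun n hn => ?_
  rw [Finset.mul_sum, Finset.mul_sum]
  refine Finset.sum_congr rfl fun P hP => ?_
  unfold XG YG
  simp only
  rw [(mem_IR.1 hP).2.2]
  ring

/-- the means are bounded by `κ₁` outside a set of primes of total degree at most `K` -/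
def Means (N : ℕ) (F : k[X] → k[X][X]) (K κ₁ : ℝ) : Prop :=
  ∃ bad : Finset k[X], (∑ P ∈ bad, (P.natDegree : ℝ) ≤ K) ∧
    ∀ P : k[X], P.Monic → Irreducible P → P.natDegree ≤ N → P ∉ bad → |muG N F P| ≤ κ₁

/-- **The deterministic part.** -/
lemma DG_bound {F : k[X] → k[X][X]} {n : ℕ} (hF : Fm F n) (h3 : 3 ≤ n) (hodd : Odd n)
    {N M : ℕ} (hMN : M ≤ N) {z : ℂ} (hz : ‖z‖ = 1) {K κ₁ : ℝ} (hκ : 0 ≤ κ₁) (hm : Means N F K κ₁) :
    |DG N M z F| ≤ 8 * κ₁ + 8 * n * (K / (M + 1)) := by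
  classical
  obtain ⟨bad₀, hK, hbad₀⟩ := hm
  obtain ⟨r0, r1⟩ := rk_bounds k
  have hMp : (0 : ℝ) < (M : ℝ) + 1 := by positivity
  have hn0 : (0 : ℝ) ≤ n := Nat.cast_nonneg _
  set bad := (II k M).filter fun P => P ∈ bad₀ with hbad
  set good := (II k M).filter fun P => ¬ P ∈ bad₀ with hgood
  have hbs : ∑ P ∈ bad, (P.natDegree : ℝ) ≤ K := by
    refine le_trans ?_ hK
    exact Finset.sum_le_sum_of_subset_of_nonneg (fun P hP => (mem_filter.1 hP).2) fun _ _ _ =>
      Nat.cast_nonneg _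
  set T : k[X] → ℝ := fun P => cM M z P.natDegree *
    ((P.natDegree : ℝ) * rk k ^ (2 * P.natDegree) * muG N F P) with hT
  have hsplit : DG N M z F = ∑ P ∈ bad, T P + ∑ P ∈ good, T P := by
    unfold DG
    exact (Finset.sum_filter_add_sum_filter_not _ _ _).symm
  -- the bad places
  have hb : |∑ P ∈ bad, T P| ≤ 8 * n * (K / (M + 1)) := by
    refine (Finset.abs_sum_le_sum_abs _ _).trans ?_
    have h4 : ∀ P ∈ bad, |T P| ≤ 8 / ((M : ℝ) + 1) * n * P.natDegree := by
      intro P hP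
      rw [hbad, mem_filter] at hP
      obtain ⟨a, b, c⟩ := mem_II hP.1
      have h5 := cM_bound hz c
      have h6 := muG_bound hF h3 hodd a b N
      rw [hT]
      simp only
      rw [abs_mul, abs_mul, abs_of_nonneg (by positivity :
        (0:ℝ) ≤ (P.natDegree : ℝ) * rk k ^ (2 * P.natDegree))]
      calc |cM M z P.natDegree| * ((P.natDegree : ℝ) * rk k ^ (2 * P.natDegree) * |muG N F P|) ≤
          8 / ((M : ℝ) + 1) * ((P.natDegree : ℝ) * rk k ^ (2 * P.natDegree) *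
            (n * (rk k ^ P.natDegree)⁻¹)) := by
            refine mul_le_mul h5 (mul_le_mul_of_nonneg_left h6 (by positivity)) (by positivity)
              (by positivity)
        _ = 8 / ((M : ℝ) + 1) * n * P.natDegree * rk k ^ P.natDegree := by
          rw [two_mul P.natDegree, pow_add]
          field_simp
        _ ≤ 8 / ((M : ℝ) + 1) * n * P.natDegree * 1 :=
          mul_le_mul_of_nonneg_left (pow_le_one₀ r0.le (by linarith)) (by positivity)
        _ = _ := mul_one _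
    refine (Finset.sum_le_sum h4).trans ?_
    rw [← Finset.mul_sum]
    calc 8 / ((M : ℝ) + 1) * n * ∑ P ∈ bad, (P.natDegree : ℝ) ≤ 8 / ((M : ℝ) + 1) * n * K :=
          mul_le_mul_of_nonneg_left hbs (by positivity)
      _ = _ := by ring
  -- the good places
  have hg : |∑ P ∈ good, T P| ≤ 8 * κ₁ := by
    refine (Finset.abs_sum_le_sum_abs _ _).trans ?_
    have h4 : ∀ P ∈ good, |T P| ≤ 8 / ((M : ℝ) + 1) * κ₁ *
        ((P.natDegree : ℝ) * rk k ^ (2 * P.natDegree)) := by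
      intro P hP
      rw [hgood, mem_filter] at hP
      obtain ⟨a, b, c⟩ := mem_II hP.1
      have h5 := cM_bound hz c
      have h6 := hbad₀ P a b (c.trans hMN) hP.2
      rw [hT]
      simp only
      rw [abs_mul, abs_mul, abs_of_nonneg (by positivity :
        (0:ℝ) ≤ (P.natDegree : ℝ) * rk k ^ (2 * P.natDegree))]
      calc |cM M z P.natDegree| * ((P.natDegree : ℝ) * rk k ^ (2 * P.natDegree) * |muG N F P|) ≤
          8 / ((M : ℝ) + 1) * ((P.natDegree : ℝ) * rk k ^ (2 * P.natDegree) * κ₁) := by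
            refine mul_le_mul h5 (mul_le_mul_of_nonneg_left h6 (by positivity)) (by positivity)
              (by positivity)
        _ = _ := by ring
    refine (Finset.sum_le_sum h4).trans ?_
    rw [← Finset.mul_sum]
    have h5 : ∑ P ∈ good, (P.natDegree : ℝ) * rk k ^ (2 * P.natDegree) ≤ (M : ℝ) := by
      calc ∑ P ∈ good, (P.natDegree : ℝ) * rk k ^ (2 * P.natDegree) ≤
          ∑ P ∈ II k M, (P.natDegree : ℝ) * rk k ^ (2 * P.natDegree) :=
            Finset.sum_le_sum_of_subset_of_nonneg (Finset.filter_subset _ _) fun _ _ _ => by positivity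
        _ = ∑ i ∈ range M, ∑ P ∈ IR k (i + 1), (P.natDegree : ℝ) * rk k ^ (2 * P.natDegree) := sum_II M _
        _ ≤ ∑ i ∈ range M, (1 : ℝ) := by
            refine Finset.sum_le_sum fun i _ => ?_
            have h6 : ∑ P ∈ IR k (i + 1), (P.natDegree : ℝ) * rk k ^ (2 * P.natDegree) =
                ((i + 1 : ℕ) : ℝ) * ((#(IR k (i + 1)) : ℝ) * rk k ^ (2 * (i + 1))) := by
              rw [Finset.sum_congr rfl (g := fun _ => ((i + 1 : ℕ) : ℝ) * rk k ^ (2 * (i + 1)))
                fun P hP => by rw [(mem_IR.1 hP).2.2], Finset.sum_const, nsmul_eq_mul]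
              ring
            rw [h6]
            have h7 := dens_le k (n := i + 1) (by omega)
            have h8 : (0 : ℝ) < ((i + 1 : ℕ) : ℝ) := by positivity
            calc ((i + 1 : ℕ) : ℝ) * ((#(IR k (i + 1)) : ℝ) * rk k ^ (2 * (i + 1))) ≤
                ((i + 1 : ℕ) : ℝ) * (1 / ((i + 1 : ℕ) : ℝ)) := mul_le_mul_of_nonneg_left h7 h8.le
              _ = 1 := by field_simp
        _ = M := by simp
    calc 8 / ((M : ℝ) + 1) * κ₁ * ∑ P ∈ good, (P.natDegree : ℝ) * rk k ^ (2 * P.natDegree) ≤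
        8 / ((M : ℝ) + 1) * κ₁ * (M + 1) :=
          mul_le_mul_of_nonneg_left (by linarith) (by positivity)
      _ = _ := by field_simp
  rw [hsplit]
  refine (abs_add_le _ _).trans ?_
  linarith

/-- **The moments.** -/
theorem XG_moment {F : k[X] → k[X][X]} {n : ℕ} (hF : Fm F n) (h3 : 3 ≤ n) (hodd : Odd n)
    {z : ℂ} (hz : ‖z‖ = 1) {M N m : ℕ} (hm : 1 ≤ m) (hN : (2 * m + 1) * M ≤ N) :
    ∑ c : degreeLT k N, (∑ P ∈ II k M, XG N M z F P (0, (c : k[X]))) ^ (2 * m) ≤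
      (3072 * n ^ 2 * m) ^ m * (Fintype.card k : ℝ) ^ N := by
  classical
  obtain ⟨r0, r1⟩ := rk_bounds k
  have hMp : (0 : ℝ) < (M : ℝ) + 1 := by positivity
  set b : k[X] → ℝ := fun P => 8 / ((M : ℝ) + 1) * (2 * n) * (P.natDegree * rk k ^ P.natDegree) with hb
  have hV : ∑ Q ∈ II k M, b Q ^ 2 ≤ 256 * (n : ℝ) ^ 2 := by
    rw [sum_II]
    have h5 : ∀ i ∈ range M, ∑ P ∈ IR k (i + 1), b P ^ 2 ≤ 256 * (n : ℝ) ^ 2 / ((M : ℝ) + 1) := by
      intro i hi
      rw [mem_range] at hi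
      have hnM : ((i + 1 : ℕ) : ℝ) ≤ M + 1 := by
        have : ((i + 1 : ℕ) : ℝ) ≤ M := by exact_mod_cast hi
        linarith
      have h6 : ∑ P ∈ IR k (i + 1), b P ^ 2 = (8 / ((M : ℝ) + 1) * (2 * n)) ^ 2 * ((i + 1 : ℕ) : ℝ) ^ 2 *
          ((#(IR k (i + 1)) : ℝ) * rk k ^ (2 * (i + 1))) := by
        rw [Finset.sum_congr rfl (g := fun _ => (8 / ((M : ℝ) + 1) * (2 * n) *
          (((i + 1 : ℕ) : ℝ) * rk k ^ (i + 1))) ^ 2) fun P hP => by
            rw [hb]
            simp only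
            rw [(mem_IR.1 hP).2.2], Finset.sum_const, nsmul_eq_mul]
        ring
      rw [h6]
      have h7 := dens_le k (n := i + 1) (by omega)
      have h8 : (0 : ℝ) < ((i + 1 : ℕ) : ℝ) := by positivity
      calc (8 / ((M : ℝ) + 1) * (2 * n)) ^ 2 * ((i + 1 : ℕ) : ℝ) ^ 2 *
          ((#(IR k (i + 1)) : ℝ) * rk k ^ (2 * (i + 1))) ≤
          (8 / ((M : ℝ) + 1) * (2 * n)) ^ 2 * ((i + 1 : ℕ) : ℝ) ^ 2 * (1 / ((i + 1 : ℕ) : ℝ)) :=
            mul_le_mul_of_nonneg_left h7 (by positivity)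
        _ = 256 * (n : ℝ) ^ 2 / ((M : ℝ) + 1) ^ 2 * ((i + 1 : ℕ) : ℝ) := by
            field_simp
            ring
        _ ≤ 256 * (n : ℝ) ^ 2 / ((M : ℝ) + 1) ^ 2 * (M + 1) :=
            mul_le_mul_of_nonneg_left hnM (by positivity)
        _ = _ := by
            field_simp
    refine (Finset.sum_le_sum h5).trans ?_
    rw [Finset.sum_const, card_range, nsmul_eq_mul]
    calc (M : ℝ) * (256 * (n : ℝ) ^ 2 / ((M : ℝ) + 1)) ≤
        (M + 1) * (256 * (n : ℝ) ^ 2 / ((M : ℝ) + 1)) :=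
          mul_le_mul_of_nonneg_right (by linarith) (by positivity)
      _ = _ := by field_simp
  have hn0 : (0 : ℝ) < n := by
    have : 0 < n := by omega
    exact_mod_cast this
  have key := moment_sub (k := k) (X := XG N M z F) (b := b) (x := M) (N := N) (I := II k M) (by
      intro P hP
      obtain ⟨g1, g2, g3⟩ := mem_II hP
      refine ⟨g1, g2, g3, ?_⟩
      intro v v' h4 h5
      unfold XG
      rw [YG_per hF P h5]) (by
      intro P hP
      obtain ⟨g1, g2, g3⟩ := mem_II hP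
      refine ⟨by positivity, fun v => ?_, ?_⟩
      · have h4 := YG_bound hF h3 hodd g1 g2 v.2
        have h4' := muG_bound hF h3 hodd g1 g2 N
        have h5 := cM_bound hz g3
        have h6 : |YG F P v.2 - muG N F P| ≤ 2 * n * (rk k ^ P.natDegree)⁻¹ := by
          refine (abs_sub _ _).trans ?_
          linarith
        unfold XG
        rw [abs_mul, abs_mul, abs_of_nonneg (by positivity : (0:ℝ) ≤ (P.natDegree : ℝ) * rk k ^ (2 * P.natDegree))]
        calc |cM M z P.natDegree| * ((P.natDegree : ℝ) * rk k ^ (2 * P.natDegree) *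
            |YG F P v.2 - muG N F P|) ≤
            8 / ((M : ℝ) + 1) * ((P.natDegree : ℝ) * rk k ^ (2 * P.natDegree) *
              (2 * n * (rk k ^ P.natDegree)⁻¹)) := by
              refine mul_le_mul h5 (mul_le_mul_of_nonneg_left h6 (by positivity)) (by positivity)
                (by positivity)
          _ = b P := by
            rw [hb]
            simp only
            rw [two_mul P.natDegree, pow_add]
            field_simp
      · unfold mV XG
        have e : (fun v : VV k N => cM M z P.natDegree * ((P.natDegree : ℝ) * rk k ^ (2 * P.natDegree) *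
            (YG F P (((v.1 : k[X]), (v.2 : k[X])) : k[X] × k[X]).2 - muG N F P))) =
            fun v : VV k N =>
            (cM M z P.natDegree * ((P.natDegree : ℝ) * rk k ^ (2 * P.natDegree))) *
              (YG F P (v.2 : k[X]) + (-muG N F P)) := by
          funext v
          ring
        have e2 : mn (fun v : VV k N => YG F P (v.2 : k[X])) = muG N F P := rfl
        rw [e, mn_mul_left, mn_add, mn_const, e2, add_neg_cancel, mul_zero]) hm hN
      (V := 256 * (n : ℝ) ^ 2) (by positivity) hV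
  have hc : (0 : ℝ) < Fintype.card (VV k N) := by exact_mod_cast Fintype.card_pos
  have hq : (0 : ℝ) < (Fintype.card k : ℝ) ^ N := by
    have : (0 : ℝ) < Fintype.card k := by exact_mod_cast Fintype.card_pos
    positivity
  unfold mV mn at key
  rw [div_le_iff₀ hc, card_VV] at key
  have e3 : ∑ v : VV k N, (∑ Q ∈ II k M, XG N M z F Q ((v.1 : k[X]), (v.2 : k[X]))) ^ (2 * m) =
      (Fintype.card k : ℝ) ^ N * ∑ c : degreeLT k N,
        (∑ P ∈ II k M, XG N M z F P (0, (c : k[X]))) ^ (2 * m) := by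
    rw [← sum_snd N (fun c => (∑ P ∈ II k M, XG N M z F P (0, c)) ^ (2 * m))]
    rfl
  rw [e3] at key
  have e4 : (12 * m * (256 * (n : ℝ) ^ 2)) ^ m * ((Fintype.card k ^ (2 * N) : ℕ) : ℝ) =
      (Fintype.card k : ℝ) ^ N * ((3072 * n ^ 2 * m) ^ m * (Fintype.card k : ℝ) ^ N) := by
    push_cast
    rw [two_mul, pow_add]
    have : (12 * m * (256 * (n : ℝ) ^ 2)) = 3072 * n ^ 2 * m := by ring
    rw [this]
    ring
  rw [e4] at key
  exact le_of_mul_le_mul_left key hq

end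

open Classical in
/-- the parameters with many zeros near a point -/
noncomputable def manyG (k : Type) [Field k] [Fintype k] (N : ℕ) (F : k[X] → k[X][X]) (g : ℕ) (κ : ℝ)
    (z : ℂ) (R : ℕ) : Finset (degreeLT k N) :=
  univ.filter fun c : degreeLT k N => ∃ (E : ED (F (c : k[X])) 0 0 g (κ * N))
    (S : Finset (Fin E.D)), (∀ i ∈ S, ‖E.α i / (Fintype.card k : ℂ) - z‖ ≤ 1 / N) ∧ R ≤ #S

section
variable {k : Type} [Field k] [Fintype k]

/-- **Markov.** -/
lemma markovG {F : k[X] → k[X][X]} {n : ℕ} (hF : Fm F n) (h3 : 3 ≤ n) (hodd : Odd n)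
    {z : ℂ} (hz : ‖z‖ = 1) {M N m : ℕ} (hm : 1 ≤ m) (hN : (2 * m + 1) * M ≤ N) {R : ℝ} (hR : 0 < R)
    (s : Finset (degreeLT k N))
    (hs : ∀ c ∈ s, R / 2 ≤ ∑ P ∈ II k M, XG N M z F P (0, (c : k[X]))) :
    (#s : ℝ) ≤ (12288 * n ^ 2 * m / R ^ 2) ^ m * (Fintype.card k : ℝ) ^ N := by
  have h5 := XG_moment hF h3 hodd hz hm hN
  have h4 : (#s : ℝ) * (R / 2) ^ (2 * m) ≤
      ∑ c : degreeLT k N, (∑ P ∈ II k M, XG N M z F P (0, (c : k[X]))) ^ (2 * m) := by
    calc (#s : ℝ) * (R / 2) ^ (2 * m) = ∑ c ∈ s, (R / 2) ^ (2 * m) := by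
          rw [Finset.sum_const, nsmul_eq_mul]
      _ ≤ ∑ c ∈ s, (∑ P ∈ II k M, XG N M z F P (0, (c : k[X]))) ^ (2 * m) :=
          Finset.sum_le_sum fun c hc => pow_le_pow_left₀ (by positivity) (hs c hc) _
      _ ≤ _ := Finset.sum_le_sum_of_subset_of_nonneg (subset_univ _) fun c _ _ => by
          rw [pow_mul]
          positivity
  have h5 := h4.trans h5
  have h6 : (0 : ℝ) < (R / 2) ^ (2 * m) := by positivity
  rw [← le_div_iff₀ h6] at h5
  refine h5.trans (le_of_eq ?_)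
  have h7 : (R / 2) ^ (2 * m) = (R ^ 2 / 4) ^ m := by
    rw [pow_mul]
    congr 1
    ring
  rw [h7, mul_div_right_comm, ← div_pow]
  congr 2
  field_simp
  ring

end

/-- **The tail of the number of zeros near a point, in a family with bounded means of the traces.** -/
theorem main_gen (n₀ g : ℕ) (h3 : 3 ≤ n₀) (hodd : Odd n₀) (hg : g ≤ n₀) {κ : ℝ} (hκ : 1 ≤ κ)
    {κ₁ : ℝ} (hκ₁ : 0 ≤ κ₁) :
    ∃ c C : ℝ, 0 < c ∧ 0 < C ∧ ∀ (k : Type) [Field k] [Fintype k],
      ∀ N : ℕ, 1 ≤ N → ∀ F : k[X] → k[X][X], Fm F n₀ → Means N F (κ * N) κ₁ →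
      ∀ z : ℂ, ‖z‖ = 1 → ∀ R : ℕ, 1 ≤ R →
        (#(manyG k N F g κ z R) : ℝ) ≤ C * (R : ℝ) ^ (-(c * R)) * (Fintype.card k : ℝ) ^ N := by
  classical
  have hn : (3 : ℝ) ≤ n₀ := by exact_mod_cast h3
  set a : ℝ := (36 + 40 * n₀) * κ with ha
  have ha1 : 36 + 40 * (n₀ : ℝ) ≤ a := by
    rw [ha]
    nlinarith
  have ha0 : 0 < a := by linarith
  set R0 : ℝ := 8 * a + 1600 * (n₀ : ℝ) ^ 2 + 64 * κ₁ with hR0
  have hR01 : 1 ≤ R0 := by nlinarith
  set c : ℝ := 1 / (32 * a) with hc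
  have hc0 : 0 < c := by positivity
  have hC1 : 1 ≤ R0 ^ (c * R0) := Real.one_le_rpow hR01 (by positivity)
  refine ⟨c, R0 ^ (c * R0), hc0, by linarith, ?_⟩
  intro k _ _ N hN F hF hmeans z hz R hR
  have hRr : (1 : ℝ) ≤ R := by exact_mod_cast hR
  have hq0 : (0 : ℝ) < (Fintype.card k : ℝ) ^ N := by
    have : (0 : ℝ) < Fintype.card k := by exact_mod_cast Fintype.card_pos
    positivity
  have htriv : (#(manyG k N F g κ z R) : ℝ) ≤ (Fintype.card k : ℝ) ^ N := by
    have h1 : #(manyG k N F g κ z R) ≤ Fintype.card (degreeLT k N) := by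
      rw [← card_univ]
      exact Finset.card_le_card (subset_univ _)
    rw [← card_deg]
    exact_mod_cast h1
  by_cases hRR : (R : ℝ) < R0
  · have h1 : (R : ℝ) ^ (c * R) ≤ R0 ^ (c * R0) := by
      calc (R : ℝ) ^ (c * R) ≤ R0 ^ (c * R) :=
            Real.rpow_le_rpow (by linarith) hRR.le (by positivity)
        _ ≤ R0 ^ (c * R0) := Real.rpow_le_rpow_of_exponent_le hR01
            (mul_le_mul_of_nonneg_left hRR.le hc0.le)
    have h4 : 1 ≤ R0 ^ (c * R0) * (R : ℝ) ^ (-(c * R)) := by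
      rw [Real.rpow_neg (by linarith), ← div_eq_mul_inv, one_le_div (by positivity)]
      exact h1
    nlinarith
  push Not at hRR
  -- the main case
  have hRa : 8 * a ≤ R := by
    have : (0 : ℝ) ≤ 1600 * (n₀ : ℝ) ^ 2 := by positivity
    linarith
  have hRn : 1600 * (n₀ : ℝ) ^ 2 ≤ R := by linarith
  have hRκ : 8 * a + 1600 * (n₀ : ℝ) ^ 2 + 64 * κ₁ ≤ R := hRR
  set y : ℝ := R / (8 * a) with hy
  have hy1 : 1 ≤ y := by
    rw [hy, one_le_div (by positivity)]
    exact hRa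
  set m : ℕ := ⌊y⌋₊ with hm
  have hmy : (m : ℝ) ≤ y := Nat.floor_le (by linarith)
  have hm1 : 1 ≤ m := by
    rw [hm, Nat.le_floor_iff (by linarith)]
    exact_mod_cast hy1
  have hm1' : (1 : ℝ) ≤ m := by exact_mod_cast hm1
  have hmy2 : y / 2 ≤ m := by
    have h1 : y < m + 1 := Nat.lt_floor_add_one y
    linarith
  set M : ℕ := N / (2 * m + 1) with hM
  have hMN : (2 * m + 1) * M ≤ N := Nat.mul_div_le N (2 * m + 1)
  have hMN2 : N < (2 * m + 1) * (M + 1) := by
    rw [hM, mul_add, mul_one]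
    exact Nat.lt_mul_div_succ N (by omega)
  have hMN3 : (N : ℝ) ≤ (2 * m + 1) * (M + 1) := by exact_mod_cast hMN2.le
  have hNr : (1 : ℝ) ≤ N := by exact_mod_cast hN
  have hMle' : M ≤ N := Nat.div_le_self _ _
  have hMle : (M : ℝ) ≤ N := by exact_mod_cast hMle'
  have hMδ : (M : ℝ) * (1 / N) ≤ 1 := by
    rw [mul_one_div, div_le_one (by linarith)]
    exact hMle
  have hya : a * y = R / 8 := by
    rw [hy]
    field_simp
  have hDD := DG_bound hF h3 hodd hMle' hz hκ₁ hmeans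
  have hDD' := (abs_le.1 hDD).2
  have hs : ∀ v ∈ manyG k N F g κ z R,
      (R : ℝ) / 2 ≤ ∑ P ∈ II k M, XG N M z F P (0, (v : k[X])) := by
    intro v hv
    unfold manyG at hv
    rw [mem_filter] at hv
    obtain ⟨_, E, S, hS, hRS⟩ := hv
    have h4 := count_main E (hF.mon _) (hF.deg _) h3 hodd (by positivity) hz hMδ S hS
    rw [TG_split N M z F (v : k[X])] at h4
    have h5 : (R : ℝ) ≤ #S := by exact_mod_cast hRS
    have h6 : κ * N / ((M : ℝ) + 1) ≤ κ * (2 * m + 1) := by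
      rw [div_le_iff₀ (by positivity), mul_assoc]
      exact mul_le_mul_of_nonneg_left hMN3 (by linarith)
    have h7 : (36 + 40 * (n₀ : ℝ)) * (κ * N / (M + 1)) ≤ a * (2 * m + 1) := by
      rw [ha, mul_assoc]
      exact mul_le_mul_of_nonneg_left h6 (by positivity)
    have h8 : (g : ℝ) ≤ n₀ := by exact_mod_cast hg
    have h9 : a * m ≤ R / 8 := by
      rw [← hya]
      exact mul_le_mul_of_nonneg_left hmy ha0.le
    nlinarith
  have key := markovG hF h3 hodd hz hm1 hMN (R := R) (by linarith) _ hs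
  have h4 : 12288 * (n₀ : ℝ) ^ 2 * m / (R : ℝ) ^ 2 ≤ (R : ℝ) ^ (-(1 / 2 : ℝ)) := by
    have h5 : 40 * (n₀ : ℝ) ≤ √(R : ℝ) := by
      apply Real.le_sqrt_of_sq_le
      have h6 : (40 * (n₀ : ℝ)) ^ 2 = 1600 * (n₀ : ℝ) ^ 2 := by ring
      rw [h6]
      exact hRn
    have h6 : (R : ℝ) ^ (-(1 / 2 : ℝ)) = (√(R : ℝ))⁻¹ := by
      rw [Real.rpow_neg (by linarith), Real.sqrt_eq_rpow]
    rw [h6]
    have hs0 : 0 < √(R : ℝ) := Real.sqrt_pos.2 (by linarith)
    have hs2 : √(R : ℝ) ^ 2 = R := Real.sq_sqrt (by linarith)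
    rw [div_le_iff₀ (by positivity)]
    have h7 : (√(R : ℝ))⁻¹ * (R : ℝ) ^ 2 = √(R : ℝ) * R := by
      have : (R : ℝ) ^ 2 = √(R : ℝ) * (√(R : ℝ) * R) := by
        rw [← mul_assoc, ← sq, hs2]
        ring
      rw [this, ← mul_assoc, inv_mul_cancel₀ hs0.ne', one_mul]
    rw [h7]
    have h8 : 40 * (n₀ : ℝ) * m ≤ R / 8 := by
      have h9 : 40 * (n₀ : ℝ) * m ≤ a * m := mul_le_mul_of_nonneg_right (by linarith) (by linarith)
      have h10 : a * m ≤ R / 8 := by
        rw [← hya]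
        exact mul_le_mul_of_nonneg_left hmy ha0.le
      linarith
    calc 12288 * (n₀ : ℝ) ^ 2 * m ≤ (40 * n₀) * (8 * (40 * n₀ * m)) := by
          have : 0 ≤ (n₀ : ℝ) ^ 2 * m := by positivity
          nlinarith
      _ ≤ √(R : ℝ) * (8 * (R / 8)) :=
          mul_le_mul h5 (by linarith) (by positivity) hs0.le
      _ = _ := by ring
  have h5 : (12288 * (n₀ : ℝ) ^ 2 * m / (R : ℝ) ^ 2) ^ m ≤ (R : ℝ) ^ (-(c * R)) := by
    calc (12288 * (n₀ : ℝ) ^ 2 * m / (R : ℝ) ^ 2) ^ m ≤ ((R : ℝ) ^ (-(1 / 2 : ℝ))) ^ m :=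
          pow_le_pow_left₀ (by positivity) h4 m
      _ = (R : ℝ) ^ (-(1 / 2 : ℝ) * m) := by
          rw [← Real.rpow_natCast, ← Real.rpow_mul (by linarith)]
      _ ≤ (R : ℝ) ^ (-(c * R)) := by
          apply Real.rpow_le_rpow_of_exponent_le hRr
          have h6 : c * R = y / 4 := by
            rw [hc, hy]
            field_simp
            ring
          rw [h6]
          linarith
  calc (#(manyG k N F g κ z R) : ℝ) ≤
      (12288 * (n₀ : ℝ) ^ 2 * m / (R : ℝ) ^ 2) ^ m * (Fintype.card k : ℝ) ^ N := key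
    _ ≤ (R : ℝ) ^ (-(c * R)) * (Fintype.card k : ℝ) ^ N :=
        mul_le_mul_of_nonneg_right h5 hq0.le
    _ ≤ R0 ^ (c * R0) * (R : ℝ) ^ (-(c * R)) * (Fintype.card k : ℝ) ^ N := by
        refine mul_le_mul_of_nonneg_right ?_ hq0.le
        have : (0 : ℝ) < (R : ℝ) ^ (-(c * R)) := by positivity
        nlinarith

end Pool.Agent.J4H77.RK
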