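import Mathlib

set_option autoImplicit false
set_option linter.all false

/-! Counting rational functions by the height. -/

namespace Pool.Agent.J4H77.RK.Ht

open Polynomial

variable {F : Type} [Field F]

/-- the height -/
noncomputable def hgt (x : RatFunc F) : ℕ := max x.num.natDegree x.denom.natDegree

/-- polynomials of degree less than `n` -/
def Lo (F : Type) [Field F] (n : ℕ) : Set F[X] := {c | c.degree < n}

/-- monic polynomials of degree `n` -/
def Mo (F : Type) [Field F] (n : ℕ) : Set F[X] := {d | d.Monic ∧ d.natDegree = n}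

variable [Finite F]

lemma Lo_fin (n : ℕ) : (Lo F n).Finite := by
  have : Finite (degreeLT F n) := Finite.of_equiv _ (degreeLTEquiv F n).symm.toEquiv
  have e : Lo F n = (degreeLT F n : Set F[X]) := by
    ext c
    simp [Lo, mem_degreeLT]
  rw [e]
  exact Set.toFinite _

lemma Lo_card (n : ℕ) : (Lo F n).ncard = Nat.card F ^ n := by
  have e : Lo F n = (degreeLT F n : Set F[X]) := by
    ext c
    simp [Lo, mem_degreeLT]
  rw [e, ← Nat.card_coe_set_eq]
  have h := Nat.card_congr (degreeLTEquiv F n).toEquiv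
  have e2 : Nat.card ((degreeLT F n : Submodule F F[X]) : Set F[X]) = Nat.card (degreeLT F n) := rfl
  rw [e2, h, Nat.card_fun]
  simp

lemma Mo_eq (n : ℕ) : Mo F n = (fun c => X ^ n + c) '' Lo F n := by
  ext d
  constructor
  · rintro ⟨h1, h2⟩
    refine ⟨d - X ^ n, ?_, by ring⟩
    show (d - X ^ n).degree < (n : WithBot ℕ)
    have h3 : d.degree = n := by rw [degree_eq_natDegree h1.ne_zero, h2]
    have h4 : (d - X ^ n).degree < d.degree := by
      apply degree_sub_lt
      · rw [h3, degree_X_pow]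
      · exact h1.ne_zero
      · rw [h1.leadingCoeff, (monic_X_pow n).leadingCoeff]
    rwa [h3] at h4
  · rintro ⟨c, hc, rfl⟩
    have hc' : c.degree < (X ^ n : F[X]).degree := by
      rw [degree_X_pow]
      exact hc
    refine ⟨(monic_X_pow n).add_of_left hc', ?_⟩
    show (X ^ n + c).natDegree = n
    rw [natDegree_add_eq_left_of_degree_lt hc', natDegree_X_pow]

lemma Mo_fin (n : ℕ) : (Mo F n).Finite := by
  rw [Mo_eq]
  exact (Lo_fin n).image _

lemma Mo_card (n : ℕ) : (Mo F n).ncard = Nat.card F ^ n := by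
  rw [Mo_eq, Set.ncard_image_of_injective _ (fun a b h => by simpa using h), Lo_card]

lemma Mo_tf (n : ℕ) : (Mo_fin (F := F) n).toFinset.card = Nat.card F ^ n := by
  rw [← Mo_card n, Set.ncard_eq_toFinset_card _ (Mo_fin n)]

lemma Lo_tf (n : ℕ) : (Lo_fin (F := F) n).toFinset.card = Nat.card F ^ n := by
  rw [← Lo_card n, Set.ncard_eq_toFinset_card _ (Lo_fin n)]

lemma sum_pow_le {q : ℕ} (hq : 2 ≤ q) (n : ℕ) : ∑ j ∈ Finset.range (n + 1), q ^ j ≤ 2 * q ^ n := by
  induction n with
  | zero => simp
  | succ n ih =>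
    rw [Finset.sum_range_succ, pow_succ]
    have h0 : 0 < q ^ n := pow_pos (by omega) _
    nlinarith

lemma card_two : 2 ≤ Nat.card F := by
  have := Finite.one_lt_card (α := F)
  omega

/-- **Counting by the denominators.** -/
lemma count_le {n M : ℕ} (T : Set (RatFunc F)) (hT : ∀ x ∈ T, hgt x ≤ n)
    (h : ∀ d : F[X], d.Monic → d.natDegree ≤ n →
      ({c : F[X] | ∃ x ∈ T, x.num = c ∧ x.denom = d}).ncard ≤ M) :
    T.Finite ∧ T.ncard ≤ 2 * Nat.card F ^ n * M := by
  classical
  have hfin : T.Finite := by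
    have h1 : T ⊆ (fun z : F[X] × F[X] => algebraMap F[X] (RatFunc F) z.1 / algebraMap F[X] (RatFunc F) z.2) ''
        (Lo F (n + 1) ×ˢ Lo F (n + 1)) := by
      intro x hx
      have h2 := hT x hx
      unfold hgt at h2
      refine ⟨(x.num, x.denom), ⟨?_, ?_⟩, RatFunc.num_div_denom x⟩
      · show x.num.degree < ((n + 1 : ℕ) : WithBot ℕ)
        refine lt_of_le_of_lt degree_le_natDegree ?_
        exact_mod_cast (by omega : x.num.natDegree < n + 1)
      · show x.denom.degree < ((n + 1 : ℕ) : WithBot ℕ)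
        refine lt_of_le_of_lt degree_le_natDegree ?_
        exact_mod_cast (by omega : x.denom.natDegree < n + 1)
    exact (((Lo_fin (n + 1)).prod (Lo_fin (n + 1))).image _).subset h1
  refine ⟨hfin, ?_⟩
  set s : Finset (RatFunc F) := hfin.toFinset with hs
  set t : Finset F[X] := (Finset.range (n + 1)).biUnion fun j => (Mo_fin (F := F) j).toFinset with ht
  have hcard : T.ncard = s.card := Set.ncard_eq_toFinset_card T hfin
  have ht2 : t.card ≤ 2 * Nat.card F ^ n := by
    refine Finset.card_biUnion_le.trans ?_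
    refine le_trans (le_of_eq (Finset.sum_congr rfl fun j _ => ?_)) (sum_pow_le (card_two (F := F)) n)
    exact Mo_tf j
  have h1 : s.card ≤ M * t.card := by
    refine Finset.card_le_mul_card_image_of_maps_to (f := RatFunc.denom) ?_ M ?_
    · intro x hx
      have hx' : x ∈ T := by simpa [hs] using hx
      rw [ht, Finset.mem_biUnion]
      have h2 := hT x hx'
      unfold hgt at h2
      refine ⟨x.denom.natDegree, Finset.mem_range.2 (by omega), ?_⟩
      rw [Set.Finite.mem_toFinset]
      exact ⟨RatFunc.monic_denom x, rfl⟩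
    · intro d hd
      rw [ht, Finset.mem_biUnion] at hd
      obtain ⟨j, hj, hd⟩ := hd
      rw [Set.Finite.mem_toFinset] at hd
      have hj' := Finset.mem_range.1 hj
      refine le_trans ?_ (h d hd.1 (by rw [hd.2]; omega))
      have h3 : ((s.filter fun x => x.denom = d).image RatFunc.num : Set F[X]) ⊆
          {c : F[X] | ∃ x ∈ T, x.num = c ∧ x.denom = d} := by
        intro c hc
        rw [Finset.mem_coe, Finset.mem_image] at hc
        obtain ⟨x, hx, rfl⟩ := hc
        rw [Finset.mem_filter] at hx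
        exact ⟨x, by simpa [hs] using hx.1, rfl, hx.2⟩
      have h4 : ({c : F[X] | ∃ x ∈ T, x.num = c ∧ x.denom = d}).Finite := by
        refine (hfin.image RatFunc.num).subset ?_
        rintro c ⟨x, hx, rfl, -⟩
        exact ⟨x, hx, rfl⟩
      have h5 := Set.ncard_le_ncard h3 h4
      rw [Set.ncard_coe_finset] at h5
      refine le_trans (le_of_eq ?_) h5
      symm
      apply Finset.card_image_of_injOn
      intro x hx y hy hxy
      rw [Finset.mem_coe, Finset.mem_filter] at hx hy
      rw [← RatFunc.num_div_denom x, ← RatFunc.num_div_denom y, hx.2, hy.2]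
      rw [hxy]
  rw [hcard]
  calc s.card ≤ M * t.card := h1
    _ ≤ M * (2 * Nat.card F ^ n) := Nat.mul_le_mul_left _ ht2
    _ = _ := by ring

lemma geo_le {q : ℕ} (hq : 3 ≤ q) (n : ℕ) :
    2 * ∑ j ∈ Finset.range n, q ^ (n + 1 + j) ≤ q ^ (2 * n + 1) := by
  induction n with
  | zero => simp
  | succ n ih =>
    have h1 : ∑ j ∈ Finset.range (n + 1), q ^ (n + 1 + 1 + j) =
        q * ∑ j ∈ Finset.range n, q ^ (n + 1 + j) + q ^ (n + 1 + 1 + n) := by
      rw [Finset.sum_range_succ, Finset.mul_sum]
      congr 1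
      refine Finset.sum_congr rfl fun j _ => ?_
      rw [← pow_succ']
      congr 1
      ring
    have h2 : q ^ (n + 1 + 1 + n) = q * q ^ (2 * n + 1) := by
      rw [← pow_succ']
      congr 1
      ring
    have h3 : q ^ (2 * (n + 1) + 1) = q * (q * q ^ (2 * n + 1)) := by
      rw [← pow_succ', ← pow_succ']
      congr 1
    rw [h1, h2, h3]
    have h4 : 0 < q ^ (2 * n + 1) := pow_pos (by omega) _
    nlinarith [Nat.mul_le_mul_left q ih, Nat.mul_le_mul_left q (Nat.mul_le_mul_right (q ^ (2 * n + 1)) hq)]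

lemma ratio_num_denom {c d : F[X]} (hd : d.Monic) (h : IsCoprime c d) :
    (algebraMap F[X] (RatFunc F) c / algebraMap F[X] (RatFunc F) d).num = c ∧
    (algebraMap F[X] (RatFunc F) c / algebraMap F[X] (RatFunc F) d).denom = d := by
  classical
  set x : RatFunc F := algebraMap F[X] (RatFunc F) c / algebraMap F[X] (RatFunc F) d with hx
  have hd0 : algebraMap F[X] (RatFunc F) d ≠ 0 := RatFunc.algebraMap_ne_zero hd.ne_zero
  have hx0 : algebraMap F[X] (RatFunc F) x.denom ≠ 0 := RatFunc.algebraMap_ne_zero (RatFunc.denom_ne_zero x)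
  have h1 : algebraMap F[X] (RatFunc F) (x.num * d) = algebraMap F[X] (RatFunc F) (c * x.denom) := by
    rw [map_mul, map_mul]
    have h2 := RatFunc.num_div_denom x
    rw [div_eq_iff hx0] at h2
    rw [h2, hx]
    field_simp
  have h2 : x.num * d = c * x.denom := RatFunc.algebraMap_injective F h1
  have h3 : d ∣ x.denom := by
    have h4 : d ∣ c * x.denom := ⟨x.num, by rw [← h2]; ring⟩
    exact h.symm.dvd_of_dvd_mul_left h4
  have h4 : x.denom ∣ d := by
    rw [hx]
    exact RatFunc.denom_div_dvd c d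
  have h5 : x.denom = d := eq_of_monic_of_associated (RatFunc.monic_denom x) hd (associated_of_dvd_dvd h4 h3)
  refine ⟨?_, h5⟩
  rw [h5] at h2
  exact mul_right_cancel₀ hd.ne_zero h2

/-- **The number of the rational functions.** -/
lemma card_ge (hq : 3 ≤ Nat.card F) (n : ℕ) :
    Nat.card F ^ (2 * n + 1) ≤ 2 * ({x : RatFunc F | hgt x ≤ n}).ncard := by
  classical
  set q := Nat.card F with hqd
  -- all pairs
  set A : Finset (F[X] × F[X]) := ((Mo_fin (F := F) n).toFinset ×ˢ (Lo_fin (F := F) (n + 1)).toFinset) with hA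
  have hAc : A.card = q ^ (2 * n + 1) := by
    rw [hA, Finset.card_product, Mo_tf, Lo_tf, ← pow_add]
    congr 1
    ring
  set A0 := A.filter fun z => IsCoprime z.2 z.1 with hA0
  set A1 := A.filter fun z => ¬ IsCoprime z.2 z.1 with hA1
  have hsum : A0.card + A1.card = A.card := Finset.card_filter_add_card_filter_not _
  -- the pairs with a common factor
  have h1 : A1 ⊆ (Finset.range n).biUnion fun j =>
      (((Mo_fin (F := F) (n - j)).toFinset ×ˢ (Mo_fin (F := F) j).toFinset) ×ˢ
        (Lo_fin (F := F) (j + 1)).toFinset).image fun w => (w.1.1 * w.1.2, w.1.1 * w.2) := by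
    rintro ⟨d, c⟩ hz
    rw [hA1, Finset.mem_filter, hA, Finset.mem_product] at hz
    obtain ⟨⟨hd, hc⟩, hcop⟩ := hz
    rw [Set.Finite.mem_toFinset] at hd hc
    simp only at hd hc hcop
    obtain ⟨hdm, hdn⟩ := hd
    have hc' : c.degree < ((n + 1 : ℕ) : WithBot ℕ) := hc
    set g : F[X] := normalize (EuclideanDomain.gcd c d) with hg
    have hgne : EuclideanDomain.gcd c d ≠ 0 := by
      rw [Ne, EuclideanDomain.gcd_eq_zero_iff, not_and]
      intro _
      exact hdm.ne_zero
    have hgm : g.Monic := monic_normalize hgne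
    have hgc : g ∣ c := (normalize_dvd_iff).2 (EuclideanDomain.gcd_dvd_left c d)
    have hgd : g ∣ d := (normalize_dvd_iff).2 (EuclideanDomain.gcd_dvd_right c d)
    have hg1 : 1 ≤ g.natDegree := by
      by_contra hlt
      have h0 : g.natDegree = 0 := by omega
      have h2 : g = 1 := hgm.natDegree_eq_zero.1 h0
      apply hcop
      have h3 : IsUnit (EuclideanDomain.gcd c d) := by
        rw [hg, normalize_eq_one] at h2
        exact h2
      exact EuclideanDomain.gcd_isUnit_iff.1 h3
    clear_value g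
    obtain ⟨c', hcc⟩ := hgc
    obtain ⟨d', hd'⟩ := hgd
    rw [hd'] at hdm hdn
    rw [hcc] at hc'
    have hd'm : d'.Monic := by
      rw [Monic, leadingCoeff_mul, hgm.leadingCoeff, one_mul] at hdm
      exact hdm
    have hdeg : g.natDegree + d'.natDegree = n := by
      rw [← hdn, natDegree_mul hgm.ne_zero hd'm.ne_zero]
    rw [Finset.mem_biUnion]
    refine ⟨d'.natDegree, Finset.mem_range.2 (by omega), ?_⟩
    rw [Finset.mem_image]
    refine ⟨((g, d'), c'), ?_, ?_⟩
    · rw [Finset.mem_product, Finset.mem_product, Set.Finite.mem_toFinset, Set.Finite.mem_toFinset,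
        Set.Finite.mem_toFinset]
      refine ⟨⟨⟨hgm, by simp only; omega⟩, ⟨hd'm, rfl⟩⟩, ?_⟩
      show c'.degree < ((d'.natDegree + 1 : ℕ) : WithBot ℕ)
      by_cases h0 : c' = 0
      · rw [h0, degree_zero]
        exact WithBot.bot_lt_coe _
      · have h5 : (g * c').natDegree < n + 1 := by
          have := (natDegree_lt_iff_degree_lt (mul_ne_zero hgm.ne_zero h0)).2 hc'
          exact this
        rw [natDegree_mul hgm.ne_zero h0] at h5
        rw [degree_eq_natDegree h0]
        exact_mod_cast (by omega : c'.natDegree < d'.natDegree + 1)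
    · simp only [Prod.mk.injEq]
      exact ⟨hd'.symm, hcc.symm⟩
  have h2 : A1.card ≤ ∑ j ∈ Finset.range n, q ^ (n + 1 + j) := by
    refine (Finset.card_le_card h1).trans (Finset.card_biUnion_le.trans (Finset.sum_le_sum fun j hj => ?_))
    refine Finset.card_image_le.trans (le_of_eq ?_)
    rw [Finset.card_product, Finset.card_product, Mo_tf, Mo_tf, Lo_tf, ← pow_add, ← pow_add]
    congr 1
    have := Finset.mem_range.1 hj
    omega
  have h3 := geo_le hq n
  -- the coprime pairs
  have hfin : ({x : RatFunc F | hgt x ≤ n}).Finite := by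
    refine (count_le (n := n) (M := Nat.card F ^ (n + 1)) _ (fun x hx => hx) fun d hd hdn => ?_).1
    rw [← Lo_card]
    refine Set.ncard_le_ncard ?_ (Lo_fin _)
    rintro c ⟨x, hx, rfl, -⟩
    have hx' : hgt x ≤ n := hx
    unfold hgt at hx'
    show x.num.degree < ((n + 1 : ℕ) : WithBot ℕ)
    refine lt_of_le_of_lt degree_le_natDegree ?_
    exact_mod_cast (by omega : x.num.natDegree < n + 1)
  have h4 : A0.card ≤ ({x : RatFunc F | hgt x ≤ n}).ncard := by
    rw [← Set.ncard_coe_finset]
    refine Set.ncard_le_ncard_of_injOn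
      (fun z => algebraMap F[X] (RatFunc F) z.2 / algebraMap F[X] (RatFunc F) z.1) ?_ ?_ hfin
    · rintro ⟨d, c⟩ hz
      rw [Finset.mem_coe, hA0, Finset.mem_filter, hA, Finset.mem_product, Set.Finite.mem_toFinset,
        Set.Finite.mem_toFinset] at hz
      obtain ⟨⟨⟨hdm, hdn⟩, hc⟩, hcop⟩ := hz
      simp only at hdm hdn hc hcop
      obtain ⟨e1, e2⟩ := ratio_num_denom hdm hcop
      show hgt _ ≤ n
      unfold hgt
      simp only
      rw [e1, e2, hdn]
      have hc' : c.degree < ((n + 1 : ℕ) : WithBot ℕ) := hc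
      have : c.natDegree ≤ n := by
        by_cases h0 : c = 0
        · rw [h0, natDegree_zero]
          exact Nat.zero_le _
        · have := (natDegree_lt_iff_degree_lt h0).2 hc'
          omega
      omega
    · rintro ⟨d, c⟩ hz ⟨d', c'⟩ hz' h
      rw [Finset.mem_coe, hA0, Finset.mem_filter, hA, Finset.mem_product, Set.Finite.mem_toFinset,
        Set.Finite.mem_toFinset] at hz hz'
      obtain ⟨⟨⟨hdm, hdn⟩, hc⟩, hcop⟩ := hz
      obtain ⟨⟨⟨hdm', hdn'⟩, hc'⟩, hcop'⟩ := hz'
      simp only at hdm hdn hc hcop hdm' hdn' hc' hcop' h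
      obtain ⟨e1, e2⟩ := ratio_num_denom hdm hcop
      obtain ⟨e3, e4⟩ := ratio_num_denom hdm' hcop'
      rw [h] at e1 e2
      rw [Prod.mk.injEq]
      exact ⟨e2.symm.trans e4, e1.symm.trans e3⟩
  omega

end Pool.Agent.J4H77.RK.Ht
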