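import Pool.Agent.J4H77.RK.Sum

set_option autoImplicit false
set_option linter.all false

/-! The traces of Frobenius of the members of a family of curves which is quadratic in the parameter. -/

namespace Pool.Agent.J4H77.RK

open Finset Polynomial Pool.Agent.N430.BP Pool.Agent.N430.BP.FF Pool.Agent.N430.RT Pool.Agent.R410.NG

section
variable {k : Type} [Field k] [Fintype k]

/-- the member of the family -/
noncomputable def fam (f0 f1 f2 : k[X][X]) (c : k[X]) : k[X][X] := f0 + C c * f1 + C (c ^ 2) * f2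

/-- the discriminant with respect to the parameter -/
noncomputable def dsc (f0 f1 f2 : k[X][X]) : k[X][X] := f1 ^ 2 - 4 * f0 * f2

/-- the trace of the member `c` -/
noncomputable def YP (f0 f1 f2 : k[X][X]) (P c : k[X]) : ℝ := trP (fam f0 f1 f2 c) 0 0 P

lemma fam_deg {f0 f1 f2 : k[X][X]} (h0 : f0.Monic) {n : ℕ} (hn : f0.natDegree = n)
    (h1 : f1.natDegree < n) (h2 : f2.natDegree < n) (c : k[X]) :
    (fam f0 f1 f2 c).Monic ∧ (fam f0 f1 f2 c).natDegree = n := by
  have hd : ∀ (f : k[X][X]) (u : k[X]), f.natDegree < n → (C u * f).degree < f0.degree := by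
    intro f u hf
    rw [degree_eq_natDegree h0.ne_zero, hn]
    refine lt_of_le_of_lt (degree_mul_le _ _) ?_
    refine lt_of_le_of_lt (add_le_add degree_C_le degree_le_natDegree) ?_
    rw [zero_add]
    exact_mod_cast hf
  have a1 : (f0 + C c * f1).Monic := h0.add_of_left (hd f1 c h1)
  have a2 : (f0 + C c * f1).natDegree = n :=
    (natDegree_add_eq_left_of_degree_lt (hd f1 c h1)).trans hn
  have a3 : (C (c ^ 2) * f2).degree < (f0 + C c * f1).degree := by
    have := hd f2 (c ^ 2) h2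
    rwa [degree_eq_natDegree h0.ne_zero, hn, ← a2, ← degree_eq_natDegree a1.ne_zero] at this
  unfold fam
  exact ⟨a1.add_of_left a3, (natDegree_add_eq_left_of_degree_lt a3).trans a2⟩

lemma dsc_deg {f0 f1 f2 : k[X][X]} {n : ℕ} (hn : f0.natDegree = n)
    (h1 : f1.natDegree < n) (h2 : f2.natDegree < n) : (dsc f0 f1 f2).natDegree ≤ 2 * n := by
  unfold dsc
  refine (natDegree_sub_le _ _).trans (max_le ?_ ?_)
  · refine natDegree_pow_le.trans ?_
    omega
  · refine natDegree_mul_le.trans ?_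
    have h3 : (4 * f0 : k[X][X]).natDegree ≤ n := by
      refine natDegree_mul_le.trans ?_
      have : (4 : k[X][X]).natDegree = 0 := natDegree_ofNat 4
      omega
    omega

lemma YP_per (f0 f1 f2 : k[X][X]) (P : k[X]) {c c' : k[X]} (h : P ∣ c - c') :
    YP f0 f1 f2 P c = YP f0 f1 f2 P c' := by
  have e1 : Ideal.Quotient.mk (Ideal.span {P}) c = Ideal.Quotient.mk (Ideal.span {P}) c' := by
    rw [mk_eq_iff]
    exact h
  have e2 : (fam f0 f1 f2 c).map (Ideal.Quotient.mk (Ideal.span {P})) =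
      (fam f0 f1 f2 c').map (Ideal.Quotient.mk (Ideal.span {P})) := by
    unfold fam
    simp only [Polynomial.map_add, Polynomial.map_mul, Polynomial.map_C, Polynomial.map_pow, map_pow, e1]
  simp only [YP, trP, pset, e2]

lemma YP_bound {f0 f1 f2 : k[X][X]} (h0 : f0.Monic) {n : ℕ} (hn : f0.natDegree = n)
    (h1 : f1.natDegree < n) (h2 : f2.natDegree < n) (h3 : 3 ≤ n) (hodd : Odd n)
    {P : k[X]} (hm : P.Monic) (hP : Irreducible P) (c : k[X]) :
    |YP f0 f1 f2 P c| ≤ n * (rk k ^ P.natDegree)⁻¹ := by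
  obtain ⟨a1, a2⟩ := fam_deg h0 hn h1 h2 c
  exact trP_bound a1 a2 h3 hodd hm hP 0 0

lemma YP_eq (f0 f1 f2 : k[X][X]) {P : k[X]} (hm : P.Monic) (hP : Irreducible P) (c : k[X]) :
    YP f0 f1 f2 P c = @trc (Rs P) (fldP hP)
      (f0.map (Ideal.Quotient.mk (Ideal.span {P})) + C (Ideal.Quotient.mk (Ideal.span {P}) c) *
        f1.map (Ideal.Quotient.mk (Ideal.span {P})) + C (Ideal.Quotient.mk (Ideal.span {P}) c ^ 2) *
        f2.map (Ideal.Quotient.mk (Ideal.span {P}))) := by
  unfold YP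
  rw [trP_eq _ hm hP]
  congr 1
  unfold gg fam
  simp

/-- the mean of the trace -/
noncomputable def muP (N : ℕ) (f0 f1 f2 : k[X][X]) (P : k[X]) : ℝ :=
  mV N (fun v => YP f0 f1 f2 P v.2)

lemma muP_bound {f0 f1 f2 : k[X][X]} (h0 : f0.Monic) {n : ℕ} (hn : f0.natDegree = n)
    (h1 : f1.natDegree < n) (h2 : f2.natDegree < n) (h3 : 3 ≤ n) (hodd : Odd n)
    {P : k[X]} (hm : P.Monic) (hP : Irreducible P) (N : ℕ) :
    |muP N f0 f1 f2 P| ≤ n * (rk k ^ P.natDegree)⁻¹ := by
  unfold muP mV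
  exact abs_mn_le fun v => YP_bound h0 hn h1 h2 h3 hodd hm hP _

/-- **The mean of the trace at a good place.** -/
lemma muP_good (hch : ringChar k ≠ 2) {f0 f1 f2 : k[X][X]} {n : ℕ} (hn : f0.natDegree = n)
    (h1 : f1.natDegree < n) (h2 : f2.natDegree < n)
    {P : k[X]} (hm : P.Monic) (hP : Irreducible P) {N : ℕ} (hN : P.natDegree ≤ N)
    (hd : (dsc f0 f1 f2).map (Ideal.Quotient.mk (Ideal.span {P})) ≠ 0) :
    |muP N f0 f1 f2 P| ≤ 2 * n + 1 := by
  classical
  let _ := fldP hP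
  let ft : Fintype (Rs P) := @Fintype.ofFinite _ (fin_quot hm)
  have hch' : ringChar (Rs P) ≠ 2 := by
    have h3 : ringChar k = ringChar (Rs P) := Algebra.ringChar_eq k (Rs P)
    intro h
    exact hch (h3.trans h)
  set g0 := f0.map (Ideal.Quotient.mk (Ideal.span {P})) with hg0
  set g1 := f1.map (Ideal.Quotient.mk (Ideal.span {P})) with hg1
  set g2 := f2.map (Ideal.Quotient.mk (Ideal.span {P})) with hg2
  have hD : (dsc f0 f1 f2).map (Ideal.Quotient.mk (Ideal.span {P})) = g1 ^ 2 - 4 * g0 * g2 := by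
    unfold dsc
    rw [Polynomial.map_sub, Polynomial.map_pow, Polynomial.map_mul, Polynomial.map_mul]
    congr 3
    simp
  have hdeg : (g1 ^ 2 - 4 * g0 * g2).natDegree ≤ 2 * n := by
    rw [← hD]
    exact natDegree_map_le.trans (dsc_deg hn h1 h2)
  rw [hD] at hd
  have key := trc_double hch' g0 g1 g2 hd hdeg
  have hres := mV_res hm hN (fun a b : Rs P => trc (Rs P) (g0 + C b * g1 + C (b ^ 2) * g2)) 0 0
  simp only [zero_add] at hres
  have e : muP N f0 f1 f2 P = mV N (fun v => trc (Rs P) (g0 + C (Ideal.Quotient.mk (Ideal.span {P}) v.2) * g1 +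
      C (Ideal.Quotient.mk (Ideal.span {P}) v.2 ^ 2) * g2)) := by
    unfold muP
    congr 1
    funext v
    exact YP_eq f0 f1 f2 hm hP v.2
  rw [e, hres]
  have hc : (0 : ℝ) < Fintype.card (Rs P) := by exact_mod_cast Fintype.card_pos
  rw [Finset.sum_const, card_univ, nsmul_eq_mul, abs_div, abs_of_nonneg (by positivity :
    (0 : ℝ) ≤ (Fintype.card (Rs P) : ℝ) ^ 2), div_le_iff₀ (by positivity), abs_mul, abs_of_pos hc]
  calc (Fintype.card (Rs P) : ℝ) * |∑ b : Rs P, trc (Rs P) (g0 + C b * g1 + C (b ^ 2) * g2)| ≤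
      Fintype.card (Rs P) * (((2 * n : ℕ) + 1) * (Fintype.card (Rs P) : ℝ)) :=
        mul_le_mul_of_nonneg_left key hc.le
    _ = _ := by
      push_cast
      ring

/-- **The total degree of the bad places.** -/
lemma bad_sum {k : Type} [Field k] {D : k[X][X]} {j : ℕ} (hj : D.coeff j ≠ 0) (I : Finset k[X])
    (hI : ∀ P ∈ I, P.Monic ∧ Irreducible P ∧ D.map (Ideal.Quotient.mk (Ideal.span {P})) = 0) :
    ∑ P ∈ I, P.natDegree ≤ (D.coeff j).natDegree := by
  classical
  have hdvd : ∀ P ∈ I, P ∣ D.coeff j := by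
    intro P hP
    have h1 := (hI P hP).2.2
    have h2 : Ideal.Quotient.mk (Ideal.span {P}) (D.coeff j) = 0 := by
      rw [← Polynomial.coeff_map, h1, coeff_zero]
    rwa [Ideal.Quotient.eq_zero_iff_mem, Ideal.mem_span_singleton] at h2
  have hprod : ∏ P ∈ I, P ∣ D.coeff j := by
    refine Finset.prod_dvd_of_coprime ?_ hdvd
    intro P hP Q hQ hPQ
    rw [Function.onFun, (hI P hP).2.1.coprime_iff_not_dvd]
    intro hd
    exact hPQ (Polynomial.eq_of_monic_of_associated (hI P hP).1 (hI Q hQ).1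
      ((hI P hP).2.1.associated_of_dvd (hI Q hQ).2.1 hd))
  rw [← natDegree_prod_of_monic _ _ fun P hP => (hI P hP).1]
  exact natDegree_le_of_dvd hprod hj

end

end Pool.Agent.J4H77.RK
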