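import Pool.Agent.J4H77.RK.Mean

set_option autoImplicit false
set_option linter.all false

/-! Moments over the parameter. -/

namespace Pool.Agent.J4H77.RK

open Finset Polynomial Pool.Agent.N430.BP Pool.Agent.N430.BP.FF Pool.Agent.N430.RT Pool.Agent.R410.NG

noncomputable instance fintypeDeg (k : Type) [Field k] [Fintype k] (N : ℕ) : Fintype (degreeLT k N) :=
  Fintype.ofFinite _

lemma card_deg (k : Type) [Field k] [Fintype k] (N : ℕ) :
    (Fintype.card (degreeLT k N) : ℝ) = (Fintype.card k : ℝ) ^ N := by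
  rw [← Nat.card_eq_fintype_card, Nat.card_congr (degreeLTEquiv k N).toEquiv,
    Nat.card_eq_fintype_card, Fintype.card_fun, Fintype.card_fin]
  push_cast
  rfl

section
variable {k : Type} [Field k] [Fintype k]

lemma sum_inst {V : Type} (i j : Fintype V) (f : V → ℝ) :
    @Finset.sum V ℝ _ (@Finset.univ V i) f = @Finset.sum V ℝ _ (@Finset.univ V j) f := by
  rw [Subsingleton.elim i j]

lemma sum_snd (N : ℕ) (G : k[X] → ℝ) : ∑ v : VV k N, G (v.2 : k[X]) =
    (Fintype.card k : ℝ) ^ N * ∑ c : degreeLT k N, G (c : k[X]) := by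
  have h1 : ∑ v : VV k N, G (v.2 : k[X]) = ∑ a : degreeLT k N, ∑ c : degreeLT k N, G (c : k[X]) := by
    rw [sum_inst (fintypeVV k N) (instFintypeProd _ _) (fun v : VV k N => G (v.2 : k[X])),
      Fintype.sum_prod_type]
  rw [h1, Finset.sum_const, card_univ, nsmul_eq_mul, card_deg]

/-- the primes of degree between `1` and `M` -/
noncomputable def II (k : Type) [Field k] [Fintype k] (M : ℕ) : Finset k[X] :=
  open Classical in (range M).biUnion fun n => IR k (n + 1)

lemma mem_II {M : ℕ} {P : k[X]} (h : P ∈ II k M) : P.Monic ∧ Irreducible P ∧ P.natDegree ≤ M := by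
  classical
  unfold II at h
  rw [Finset.mem_biUnion] at h
  obtain ⟨n, hn, hP⟩ := h
  obtain ⟨g1, g2, g3⟩ := mem_IR.1 hP
  rw [mem_range] at hn
  exact ⟨g1, g2, by omega⟩

lemma sum_II (M : ℕ) (F : k[X] → ℝ) : ∑ P ∈ II k M, F P = ∑ n ∈ range M, ∑ P ∈ IR k (n + 1), F P := by
  classical
  unfold II
  refine Finset.sum_biUnion ?_
  intro n _ m _ hnm
  rw [Function.onFun, Finset.disjoint_left]
  intro P h1 h2
  have := (mem_IR.1 h1).2.2.symm.trans (mem_IR.1 h2).2.2
  exact hnm (by omega)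

/-- the random variables -/
noncomputable def XX (N M : ℕ) (z : ℂ) (f0 f1 f2 : k[X][X]) (P : k[X]) (v : k[X] × k[X]) : ℝ :=
  cM M z P.natDegree * ((P.natDegree : ℝ) * rk k ^ (2 * P.natDegree) *
    (YP f0 f1 f2 P v.2 - muP N f0 f1 f2 P))

/-- the deterministic part -/
noncomputable def DD (N M : ℕ) (z : ℂ) (f0 f1 f2 : k[X][X]) : ℝ :=
  ∑ P ∈ II k M, cM M z P.natDegree * ((P.natDegree : ℝ) * rk k ^ (2 * P.natDegree) * muP N f0 f1 f2 P)

lemma TT_split (N M : ℕ) (z : ℂ) (f0 f1 f2 : k[X][X]) (c : k[X]) :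
    TT (fam f0 f1 f2 c) M z (0, 0) = ∑ P ∈ II k M, XX N M z f0 f1 f2 P (0, c) + DD N M z f0 f1 f2 := by
  unfold DD
  rw [← Finset.sum_add_distrib, sum_II]
  unfold TT
  refine Finset.sum_congr rfl fun n hn => ?_
  rw [Finset.mul_sum, Finset.mul_sum]
  refine Finset.sum_congr rfl fun P hP => ?_
  unfold XX YP
  simp only
  rw [(mem_IR.1 hP).2.2]
  ring

/-- **The deterministic part.** -/
lemma DD_bound (hch : ringChar k ≠ 2) {f0 f1 f2 : k[X][X]} (h0 : f0.Monic) {n : ℕ}
    (hn : f0.natDegree = n) (h1 : f1.natDegree < n) (h2 : f2.natDegree < n) (h3 : 3 ≤ n) (hodd : Odd n)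
    {N M : ℕ} (hMN : M ≤ N) {z : ℂ} (hz : ‖z‖ = 1) {K : ℝ} {j : ℕ} (hj : (dsc f0 f1 f2).coeff j ≠ 0)
    (hK : (((dsc f0 f1 f2).coeff j).natDegree : ℝ) ≤ K) :
    |DD N M z f0 f1 f2| ≤ 8 * (2 * n + 1) + 8 * n * (K / (M + 1)) := by
  classical
  obtain ⟨r0, r1⟩ := rk_bounds k
  have hMp : (0 : ℝ) < (M : ℝ) + 1 := by positivity
  have hn0 : (0 : ℝ) ≤ n := Nat.cast_nonneg _
  set bad := (II k M).filter fun P => (dsc f0 f1 f2).map (Ideal.Quotient.mk (Ideal.span {P})) = 0 with hbad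
  set good := (II k M).filter fun P => ¬ (dsc f0 f1 f2).map (Ideal.Quotient.mk (Ideal.span {P})) = 0 with hgood
  have hbs : ∑ P ∈ bad, (P.natDegree : ℝ) ≤ K := by
    refine le_trans ?_ hK
    have := bad_sum hj bad (by
      intro P hP
      rw [hbad, mem_filter] at hP
      obtain ⟨a, b, c⟩ := mem_II hP.1
      exact ⟨a, b, hP.2⟩)
    exact_mod_cast this
  set T : k[X] → ℝ := fun P => cM M z P.natDegree *
    ((P.natDegree : ℝ) * rk k ^ (2 * P.natDegree) * muP N f0 f1 f2 P) with hT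
  have hsplit : DD N M z f0 f1 f2 = ∑ P ∈ bad, T P + ∑ P ∈ good, T P := by
    unfold DD
    exact (Finset.sum_filter_add_sum_filter_not _ _ _).symm
  -- the bad places
  have hb : |∑ P ∈ bad, T P| ≤ 8 * n * (K / (M + 1)) := by
    refine (Finset.abs_sum_le_sum_abs _ _).trans ?_
    have h4 : ∀ P ∈ bad, |T P| ≤ 8 / ((M : ℝ) + 1) * n * P.natDegree := by
      intro P hP
      rw [hbad, mem_filter] at hP
      obtain ⟨a, b, c⟩ := mem_II hP.1
      have h5 := cM_bound hz c
      have h6 := muP_bound h0 hn h1 h2 h3 hodd a b N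
      rw [hT]
      simp only
      rw [abs_mul, abs_mul, abs_of_nonneg (by positivity :
        (0:ℝ) ≤ (P.natDegree : ℝ) * rk k ^ (2 * P.natDegree))]
      calc |cM M z P.natDegree| * ((P.natDegree : ℝ) * rk k ^ (2 * P.natDegree) * |muP N f0 f1 f2 P|) ≤
          8 / ((M : ℝ) + 1) * ((P.natDegree : ℝ) * rk k ^ (2 * P.natDegree) *
            (n * (rk k ^ P.natDegree)⁻¹)) := by
            refine mul_le_mul h5 (mul_le_mul_of_nonneg_left h6 (by positivity)) (by positivity)
              (by positivity)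
        _ = 8 / ((M : ℝ) + 1) * n * P.natDegree * rk k ^ P.natDegree := by
          rw [two_mul P.natDegree, pow_add]
          field_simp
        _ ≤ 8 / ((M : ℝ) + 1) * n * P.natDegree * 1 :=
          mul_le_mul_of_nonneg_left (pow_le_one₀ r0.le (by linarith)) (by positivity)
        _ = _ := mul_one _
    refine (Finset.sum_le_sum h4).trans ?_
    rw [← Finset.mul_sum]
    calc 8 / ((M : ℝ) + 1) * n * ∑ P ∈ bad, (P.natDegree : ℝ) ≤ 8 / ((M : ℝ) + 1) * n * K :=
          mul_le_mul_of_nonneg_left hbs (by positivity)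
      _ = _ := by ring
  -- the good places
  have hg : |∑ P ∈ good, T P| ≤ 8 * (2 * n + 1) := by
    refine (Finset.abs_sum_le_sum_abs _ _).trans ?_
    have h4 : ∀ P ∈ good, |T P| ≤ 8 / ((M : ℝ) + 1) * (2 * n + 1) *
        ((P.natDegree : ℝ) * rk k ^ (2 * P.natDegree)) := by
      intro P hP
      rw [hgood, mem_filter] at hP
      obtain ⟨a, b, c⟩ := mem_II hP.1
      have h5 := cM_bound hz c
      have h6 := muP_good hch hn h1 h2 a b (c.trans hMN) hP.2
      rw [hT]
      simp only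
      rw [abs_mul, abs_mul, abs_of_nonneg (by positivity :
        (0:ℝ) ≤ (P.natDegree : ℝ) * rk k ^ (2 * P.natDegree))]
      calc |cM M z P.natDegree| * ((P.natDegree : ℝ) * rk k ^ (2 * P.natDegree) * |muP N f0 f1 f2 P|) ≤
          8 / ((M : ℝ) + 1) * ((P.natDegree : ℝ) * rk k ^ (2 * P.natDegree) * (2 * n + 1)) := by
            refine mul_le_mul h5 (mul_le_mul_of_nonneg_left h6 (by positivity)) (by positivity)
              (by positivity)
        _ = _ := by ring
    refine (Finset.sum_le_sum h4).trans ?_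
    rw [← Finset.mul_sum]
    have h5 : ∑ P ∈ good, (P.natDegree : ℝ) * rk k ^ (2 * P.natDegree) ≤ (M : ℝ) := by
      calc ∑ P ∈ good, (P.natDegree : ℝ) * rk k ^ (2 * P.natDegree) ≤
          ∑ P ∈ II k M, (P.natDegree : ℝ) * rk k ^ (2 * P.natDegree) :=
            Finset.sum_le_sum_of_subset_of_nonneg (Finset.filter_subset _ _) fun _ _ _ => by positivity
        _ = ∑ i ∈ range M, ∑ P ∈ IR k (i + 1), (P.natDegree : ℝ) * rk k ^ (2 * P.natDegree) := sum_II M _
        _ ≤ ∑ i ∈ range M, (1 : ℝ) := by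
            refine Finset.sum_le_sum fun i _ => ?_
            have h6 : ∑ P ∈ IR k (i + 1), (P.natDegree : ℝ) * rk k ^ (2 * P.natDegree) =
                ((i + 1 : ℕ) : ℝ) * ((#(IR k (i + 1)) : ℝ) * rk k ^ (2 * (i + 1))) := by
              rw [Finset.sum_congr rfl (g := fun _ => ((i + 1 : ℕ) : ℝ) * rk k ^ (2 * (i + 1)))
                fun P hP => by rw [(mem_IR.1 hP).2.2], Finset.sum_const, nsmul_eq_mul]
              ring
            rw [h6]
            have h7 := dens_le k (n := i + 1) (by omega)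
            have h8 : (0 : ℝ) < ((i + 1 : ℕ) : ℝ) := by positivity
            calc ((i + 1 : ℕ) : ℝ) * ((#(IR k (i + 1)) : ℝ) * rk k ^ (2 * (i + 1))) ≤
                ((i + 1 : ℕ) : ℝ) * (1 / ((i + 1 : ℕ) : ℝ)) := mul_le_mul_of_nonneg_left h7 h8.le
              _ = 1 := by field_simp
        _ = M := by simp
    calc 8 / ((M : ℝ) + 1) * (2 * n + 1) * ∑ P ∈ good, (P.natDegree : ℝ) * rk k ^ (2 * P.natDegree) ≤
        8 / ((M : ℝ) + 1) * (2 * n + 1) * (M + 1) :=
          mul_le_mul_of_nonneg_left (by linarith) (by positivity)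
      _ = _ := by field_simp
  rw [hsplit]
  refine (abs_add_le _ _).trans ?_
  linarith

/-- **The moments.** -/
theorem XX_moment {f0 f1 f2 : k[X][X]} (h0 : f0.Monic) {n : ℕ}
    (hn : f0.natDegree = n) (h1 : f1.natDegree < n) (h2 : f2.natDegree < n) (h3 : 3 ≤ n) (hodd : Odd n)
    {z : ℂ} (hz : ‖z‖ = 1) {M N m : ℕ} (hm : 1 ≤ m) (hN : (2 * m + 1) * M ≤ N) :
    ∑ c : degreeLT k N, (∑ P ∈ II k M, XX N M z f0 f1 f2 P (0, (c : k[X]))) ^ (2 * m) ≤
      (3072 * n ^ 2 * m) ^ m * (Fintype.card k : ℝ) ^ N := by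
  classical
  obtain ⟨r0, r1⟩ := rk_bounds k
  have hMp : (0 : ℝ) < (M : ℝ) + 1 := by positivity
  set b : k[X] → ℝ := fun P => 8 / ((M : ℝ) + 1) * (2 * n) * (P.natDegree * rk k ^ P.natDegree) with hb
  have hV : ∑ Q ∈ II k M, b Q ^ 2 ≤ 256 * (n : ℝ) ^ 2 := by
    rw [sum_II]
    have h5 : ∀ i ∈ range M, ∑ P ∈ IR k (i + 1), b P ^ 2 ≤ 256 * (n : ℝ) ^ 2 / ((M : ℝ) + 1) := by
      intro i hi
      rw [mem_range] at hi
      have hnM : ((i + 1 : ℕ) : ℝ) ≤ M + 1 := by
        have : ((i + 1 : ℕ) : ℝ) ≤ M := by exact_mod_cast hi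
        linarith
      have h6 : ∑ P ∈ IR k (i + 1), b P ^ 2 = (8 / ((M : ℝ) + 1) * (2 * n)) ^ 2 * ((i + 1 : ℕ) : ℝ) ^ 2 *
          ((#(IR k (i + 1)) : ℝ) * rk k ^ (2 * (i + 1))) := by
        rw [Finset.sum_congr rfl (g := fun _ => (8 / ((M : ℝ) + 1) * (2 * n) *
          (((i + 1 : ℕ) : ℝ) * rk k ^ (i + 1))) ^ 2) fun P hP => by
            rw [hb]
            simp only
            rw [(mem_IR.1 hP).2.2], Finset.sum_const, nsmul_eq_mul]
        ring
      rw [h6]
      have h7 := dens_le k (n := i + 1) (by omega)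
      have h8 : (0 : ℝ) < ((i + 1 : ℕ) : ℝ) := by positivity
      calc (8 / ((M : ℝ) + 1) * (2 * n)) ^ 2 * ((i + 1 : ℕ) : ℝ) ^ 2 *
          ((#(IR k (i + 1)) : ℝ) * rk k ^ (2 * (i + 1))) ≤
          (8 / ((M : ℝ) + 1) * (2 * n)) ^ 2 * ((i + 1 : ℕ) : ℝ) ^ 2 * (1 / ((i + 1 : ℕ) : ℝ)) :=
            mul_le_mul_of_nonneg_left h7 (by positivity)
        _ = 256 * (n : ℝ) ^ 2 / ((M : ℝ) + 1) ^ 2 * ((i + 1 : ℕ) : ℝ) := by
            field_simp
            ring
        _ ≤ 256 * (n : ℝ) ^ 2 / ((M : ℝ) + 1) ^ 2 * (M + 1) :=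
            mul_le_mul_of_nonneg_left hnM (by positivity)
        _ = _ := by
            field_simp
    refine (Finset.sum_le_sum h5).trans ?_
    rw [Finset.sum_const, card_range, nsmul_eq_mul]
    calc (M : ℝ) * (256 * (n : ℝ) ^ 2 / ((M : ℝ) + 1)) ≤
        (M + 1) * (256 * (n : ℝ) ^ 2 / ((M : ℝ) + 1)) :=
          mul_le_mul_of_nonneg_right (by linarith) (by positivity)
      _ = _ := by field_simp
  have hn0 : (0 : ℝ) < n := by
    have : 0 < n := by omega
    exact_mod_cast this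
  have key := moment_sub (k := k) (X := XX N M z f0 f1 f2) (b := b) (x := M) (N := N) (I := II k M) (by
      intro P hP
      obtain ⟨g1, g2, g3⟩ := mem_II hP
      refine ⟨g1, g2, g3, ?_⟩
      intro v v' h4 h5
      unfold XX
      rw [YP_per f0 f1 f2 P h5]) (by
      intro P hP
      obtain ⟨g1, g2, g3⟩ := mem_II hP
      refine ⟨by positivity, fun v => ?_, ?_⟩
      · have h4 := YP_bound h0 hn h1 h2 h3 hodd g1 g2 v.2
        have h4' := muP_bound h0 hn h1 h2 h3 hodd g1 g2 N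
        have h5 := cM_bound hz g3
        have h6 : |YP f0 f1 f2 P v.2 - muP N f0 f1 f2 P| ≤ 2 * n * (rk k ^ P.natDegree)⁻¹ := by
          refine (abs_sub _ _).trans ?_
          linarith
        unfold XX
        rw [abs_mul, abs_mul, abs_of_nonneg (by positivity : (0:ℝ) ≤ (P.natDegree : ℝ) * rk k ^ (2 * P.natDegree))]
        calc |cM M z P.natDegree| * ((P.natDegree : ℝ) * rk k ^ (2 * P.natDegree) *
            |YP f0 f1 f2 P v.2 - muP N f0 f1 f2 P|) ≤
            8 / ((M : ℝ) + 1) * ((P.natDegree : ℝ) * rk k ^ (2 * P.natDegree) *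
              (2 * n * (rk k ^ P.natDegree)⁻¹)) := by
              refine mul_le_mul h5 (mul_le_mul_of_nonneg_left h6 (by positivity)) (by positivity)
                (by positivity)
          _ = b P := by
            rw [hb]
            simp only
            rw [two_mul P.natDegree, pow_add]
            field_simp
      · unfold mV XX
        have e : (fun v : VV k N => cM M z P.natDegree * ((P.natDegree : ℝ) * rk k ^ (2 * P.natDegree) *
            (YP f0 f1 f2 P (((v.1 : k[X]), (v.2 : k[X])) : k[X] × k[X]).2 - muP N f0 f1 f2 P))) =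
            fun v : VV k N =>
            (cM M z P.natDegree * ((P.natDegree : ℝ) * rk k ^ (2 * P.natDegree))) *
              (YP f0 f1 f2 P (v.2 : k[X]) + (-muP N f0 f1 f2 P)) := by
          funext v
          ring
        have e2 : mn (fun v : VV k N => YP f0 f1 f2 P (v.2 : k[X])) = muP N f0 f1 f2 P := rfl
        rw [e, mn_mul_left, mn_add, mn_const, e2, add_neg_cancel, mul_zero]) hm hN
      (V := 256 * (n : ℝ) ^ 2) (by positivity) hV
  have hc : (0 : ℝ) < Fintype.card (VV k N) := by exact_mod_cast Fintype.card_pos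
  have hq : (0 : ℝ) < (Fintype.card k : ℝ) ^ N := by
    have : (0 : ℝ) < Fintype.card k := by exact_mod_cast Fintype.card_pos
    positivity
  unfold mV mn at key
  rw [div_le_iff₀ hc, card_VV] at key
  have e3 : ∑ v : VV k N, (∑ Q ∈ II k M, XX N M z f0 f1 f2 Q ((v.1 : k[X]), (v.2 : k[X]))) ^ (2 * m) =
      (Fintype.card k : ℝ) ^ N * ∑ c : degreeLT k N,
        (∑ P ∈ II k M, XX N M z f0 f1 f2 P (0, (c : k[X]))) ^ (2 * m) := by
    rw [← sum_snd N (fun c => (∑ P ∈ II k M, XX N M z f0 f1 f2 P (0, c)) ^ (2 * m))]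
    rfl
  rw [e3] at key
  have e4 : (12 * m * (256 * (n : ℝ) ^ 2)) ^ m * ((Fintype.card k ^ (2 * N) : ℕ) : ℝ) =
      (Fintype.card k : ℝ) ^ N * ((3072 * n ^ 2 * m) ^ m * (Fintype.card k : ℝ) ^ N) := by
    push_cast
    rw [two_mul, pow_add]
    have : (12 * m * (256 * (n : ℝ) ^ 2)) = 3072 * n ^ 2 * m := by ring
    rw [this]
    ring
  rw [e4] at key
  exact le_of_mul_le_mul_left key hq

end

end Pool.Agent.J4H77.RK
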