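import Pool.Agent.N430.RT.A5

set_option autoImplicit false
set_option linter.all false

/-! Sums of the quadratic character over the values of the members of a family of curves which is
quadratic in the parameter. -/

namespace Pool.Agent.J4H77.RK

open Finset Polynomial Pool.Agent.N430.BP Pool.Agent.R410.NG

section
variable {F : Type} [Field F] [Fintype F] [DecidableEq F]

/-- the number of the points of a hyperbola -/
lemma hyp_card (hF : ringChar F ≠ 2) {δ : F} (hδ : δ ≠ 0) :
    Nat.card {z : F × F // z.2 ^ 2 = z.1 ^ 2 - δ} = Fintype.card F - 1 := by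
  have h2 : (2 : F) ≠ 0 := Ring.two_ne_zero hF
  have e : {z : F × F // z.2 ^ 2 = z.1 ^ 2 - δ} ≃ {t : F // t ≠ 0} :=
    { toFun := fun z => ⟨z.1.1 - z.1.2, by
        intro h
        apply hδ
        have h1 := z.2
        have h3 : z.1.1 = z.1.2 := sub_eq_zero.1 h
        rw [h3] at h1
        linear_combination h1⟩
      invFun := fun t => ⟨((t.1 + δ / t.1) / 2, (δ / t.1 - t.1) / 2), by
        have ht := t.2
        field_simp
        ring⟩
      left_inv := by
        rintro ⟨⟨w, y⟩, h⟩
        simp only at h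
        have hne : w - y ≠ 0 := by
          intro h0
          apply hδ
          have h3 : w = y := sub_eq_zero.1 h0
          rw [h3] at h
          linear_combination h
        have h4 : δ / (w - y) = w + y := by
          rw [div_eq_iff hne]
          linear_combination h
        apply Subtype.ext
        simp only
        rw [h4]
        refine Prod.ext ?_ ?_
        · simp only
          field_simp
          ring
        · simp only
          field_simp
          ring
      right_inv := by
        rintro ⟨t, ht⟩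
        apply Subtype.ext
        simp only
        field_simp
        ring }
  rw [Nat.card_congr e, Nat.card_eq_fintype_card, Fintype.card_subtype_compl, Fintype.card_subtype_eq]

/-- the sum over a quadratic polynomial -/
lemma quad_sum (hF : ringChar F ≠ 2) {δ : F} (hδ : δ ≠ 0) : ∑ w : F, quadraticChar F (w ^ 2 - δ) = -1 := by
  have h1 := trc_char hF (X ^ 2 - C δ : F[X])
  simp only [eval_sub, eval_pow, eval_X, eval_C] at h1
  unfold trc at h1
  simp only [eval_sub, eval_pow, eval_X, eval_C] at h1
  rw [hyp_card hF hδ, Nat.card_eq_fintype_card, Nat.cast_sub Fintype.card_pos] at h1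
  have h2 : ((∑ w : F, quadraticChar F (w ^ 2 - δ) : ℤ) : ℝ) = ((-1 : ℤ) : ℝ) := by
    push_cast at h1 ⊢
    linarith
  exact_mod_cast h2

lemma abs_chi_le (u : F) : |(quadraticChar F u : ℤ)| ≤ 1 := by
  by_cases h : u = 0
  · rw [h]; simp
  · rcases quadraticChar_dichotomy h with h1 | h1 <;> rw [h1] <;> simp

/-- **The sum over the parameter, nondegenerate case.** -/
lemma par_sum (hF : ringChar F ≠ 2) {a b e : F} (hd : b ^ 2 - 4 * e * a ≠ 0) :
    |∑ u : F, quadraticChar F (e + u * b + u ^ 2 * a)| ≤ 1 := by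
  have h2 : (2 : F) ≠ 0 := Ring.two_ne_zero hF
  by_cases ha : a = 0
  · subst ha
    have hb : b ≠ 0 := by
      rintro rfl
      simp at hd
    have e1 : ∑ u : F, quadraticChar F (e + u * b + u ^ 2 * 0) = ∑ u : F, quadraticChar F (e + u) := by
      refine Fintype.sum_equiv (Equiv.mulRight₀ b hb) _ _ fun u => ?_
      simp
    rw [e1, sum_chi_shift hF]
    simp
  · have h4a : (4 : F) * a ≠ 0 := by
      have : (4 : F) = 2 * 2 := by norm_num
      rw [this]
      exact mul_ne_zero (mul_ne_zero h2 h2) ha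
    have h2a : (2 : F) * a ≠ 0 := mul_ne_zero h2 ha
    have e1 : ∀ u : F, quadraticChar F (e + u * b + u ^ 2 * a) = quadraticChar F (4 * a) *
        quadraticChar F ((2 * a * u + b) ^ 2 - (b ^ 2 - 4 * e * a)) := by
      intro u
      have h3 : (2 * a * u + b) ^ 2 - (b ^ 2 - 4 * e * a) = 4 * a * (e + u * b + u ^ 2 * a) := by ring
      rw [h3, map_mul (quadraticChar F) (4 * a) (e + u * b + u ^ 2 * a), ← mul_assoc, ← sq,
        quadraticChar_sq_one h4a, one_mul]
    simp only [e1]
    rw [← Finset.mul_sum]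
    have e2 : ∑ u : F, quadraticChar F ((2 * a * u + b) ^ 2 - (b ^ 2 - 4 * e * a)) =
        ∑ w : F, quadraticChar F (w ^ 2 - (b ^ 2 - 4 * e * a)) :=
      Fintype.sum_equiv ((Equiv.mulLeft₀ (2 * a) h2a).trans (Equiv.addRight b)) _ _ fun u => rfl
    rw [e2, quad_sum hF hd, mul_neg_one, abs_neg]
    exact abs_chi_le _

/-- **The double sum.** -/
lemma double_sum (hF : ringChar F ≠ 2) (g0 g1 g2 : F[X]) (hd : g1 ^ 2 - 4 * g0 * g2 ≠ 0) {n : ℕ}
    (hn : (g1 ^ 2 - 4 * g0 * g2).natDegree ≤ n) :
    |∑ u : F, ∑ x : F, quadraticChar F (g0.eval x + u * g1.eval x + u ^ 2 * g2.eval x)| ≤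
      (n + 1) * (Fintype.card F : ℤ) := by
  classical
  rw [Finset.sum_comm]
  refine (Finset.abs_sum_le_sum_abs _ _).trans ?_
  have h1 : ∀ x : F, |∑ u : F, quadraticChar F (g0.eval x + u * g1.eval x + u ^ 2 * g2.eval x)| ≤
      1 + if (g1 ^ 2 - 4 * g0 * g2).eval x = 0 then (Fintype.card F : ℤ) else 0 := by
    intro x
    split_ifs with h
    · refine (Finset.abs_sum_le_sum_abs _ _).trans ((Finset.sum_le_sum fun u _ => abs_chi_le _).trans ?_)
      rw [Finset.sum_const, card_univ, nsmul_eq_mul, mul_one]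
      omega
    · rw [add_zero]
      apply par_sum hF
      intro h5
      apply h
      simp only [eval_sub, eval_mul, eval_pow, eval_ofNat]
      linear_combination h5
  refine (Finset.sum_le_sum fun x _ => h1 x).trans ?_
  rw [Finset.sum_add_distrib, Finset.sum_const, card_univ, nsmul_eq_mul, mul_one, ← Finset.sum_filter,
    Finset.sum_const, nsmul_eq_mul]
  have h2 : #(univ.filter fun x : F => (g1 ^ 2 - 4 * g0 * g2).eval x = 0) ≤ n := by
    refine le_trans ?_ hn
    refine le_trans ?_ (Polynomial.card_roots' (g1 ^ 2 - 4 * g0 * g2))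
    have h3 : (univ.filter fun x : F => (g1 ^ 2 - 4 * g0 * g2).eval x = 0) ⊆
        (g1 ^ 2 - 4 * g0 * g2).roots.toFinset := by
      intro x hx
      rw [mem_filter] at hx
      rw [Multiset.mem_toFinset, Polynomial.mem_roots hd]
      exact hx.2
    exact (Finset.card_le_card h3).trans (Multiset.toFinset_card_le _)
  have h3 : (#(univ.filter fun x : F => (g1 ^ 2 - 4 * g0 * g2).eval x = 0) : ℤ) ≤ n := by
    exact_mod_cast h2
  have h4 : (0 : ℤ) ≤ Fintype.card F := Nat.cast_nonneg _
  nlinarith

/-- **The mean of the trace.** -/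
lemma trc_double (hF : ringChar F ≠ 2) (g0 g1 g2 : F[X]) (hd : g1 ^ 2 - 4 * g0 * g2 ≠ 0) {n : ℕ}
    (hn : (g1 ^ 2 - 4 * g0 * g2).natDegree ≤ n) :
    |∑ u : F, trc F (g0 + C u * g1 + C (u ^ 2) * g2)| ≤ (n + 1) * (Fintype.card F : ℝ) := by
  have h1 : ∑ u : F, trc F (g0 + C u * g1 + C (u ^ 2) * g2) =
      -((∑ u : F, ∑ x : F, quadraticChar F (g0.eval x + u * g1.eval x + u ^ 2 * g2.eval x) : ℤ) : ℝ) := by
    rw [Int.cast_sum, ← Finset.sum_neg_distrib]
    refine Finset.sum_congr rfl fun u _ => ?_
    rw [trc_char hF]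
    simp only [eval_add, eval_mul, eval_C]
  rw [h1, abs_neg, ← Int.cast_abs]
  have := double_sum hF g0 g1 g2 hd hn
  exact_mod_cast this

end

end Pool.Agent.J4H77.RK
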