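import Pool.Agent.J4H77.RK.Gen
import Pool.Agent.H341R2.WeilSharp

set_option autoImplicit false
set_option linter.all false

/-! Quadratic twists by the values of a polynomial. -/

namespace Pool.Agent.J4H77.RK

open Finset Polynomial Pool.Agent.N430.BP Pool.Agent.N430.BP.FF Pool.Agent.N430.RT Pool.Agent.R410.NG

section
variable {F : Type} [Field F] [Fintype F] [DecidableEq F]

/-- the trace of a quadratic twist -/
lemma trc_tw (hF : ringChar F ≠ 2) {g : F[X]} (hg : g.Monic) (hodd : Odd g.natDegree) (s : F) :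
    trc F (g.scaleRoots s) = (quadraticChar F s : ℝ) * trc F g := by
  rw [trc_char hF, trc_char hF]
  by_cases hs : s = 0
  · subst hs
    have h1 : ∑ x : F, quadraticChar F ((g.scaleRoots 0).eval x) = 0 := by
      have h2 : ∀ x : F, quadraticChar F ((g.scaleRoots 0).eval x) = quadraticChar F x := by
        intro x
        rw [Polynomial.scaleRoots_zero, hg.leadingCoeff, one_smul, eval_pow, eval_X, map_pow]
        obtain ⟨e, he⟩ := hodd
        rw [he, pow_succ, pow_mul]
        by_cases hx : x = 0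
        · subst hx
          simp
        · rw [quadraticChar_sq_one hx, one_pow, one_mul]
      rw [Finset.sum_congr rfl fun x _ => h2 x]
      exact quadraticChar_sum_zero hF
    rw [h1]
    simp
  · have h1 : ∑ x : F, quadraticChar F ((g.scaleRoots s).eval x) =
        quadraticChar F s * ∑ x : F, quadraticChar F (g.eval x) := by
      rw [← Equiv.sum_comp (Equiv.mulLeft₀ s hs) (fun y => quadraticChar F ((g.scaleRoots s).eval y)), Finset.mul_sum]
      refine Finset.sum_congr rfl fun x _ => ?_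
      show quadraticChar F ((g.scaleRoots s).eval (s * x)) = _
      rw [Polynomial.scaleRoots_eval_mul, map_mul, map_pow]
      congr 1
      obtain ⟨e, he⟩ := hodd
      rw [he, pow_succ, pow_mul, quadraticChar_sq_one hs, one_pow, one_mul]
    rw [h1]
    push_cast
    ring

omit [Fintype F] [DecidableEq F] in
/-- a polynomial `a h² + r` which is not a square -/
lemma ns_of {a : F} {h r : F[X]} (hF : ringChar F ≠ 2) (ha : a ≠ 0) (hr : r ≠ 0)
    (hd : r.natDegree < h.natDegree) : ∀ (b : F) (g : F[X]), C a * h ^ 2 + r ≠ C b * g ^ 2 := by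
  intro b g he
  have h2 : (2 : F) ≠ 0 := Ring.two_ne_zero hF
  have hh : h ≠ 0 := by
    rintro rfl
    simp at hd
  have hdl : (C a * h ^ 2).natDegree = 2 * h.natDegree := by
    rw [natDegree_C_mul ha, natDegree_pow]
  have hdlt : r.natDegree < (C a * h ^ 2).natDegree := by omega
  have hds : (C a * h ^ 2 + r).natDegree = 2 * h.natDegree := by
    rw [natDegree_add_eq_left_of_natDegree_lt hdlt, hdl]
  have hb : b ≠ 0 := by
    rintro rfl
    rw [he] at hds
    simp at hds
    omega
  have hdg : g.natDegree = h.natDegree := by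
    rw [he, natDegree_C_mul hb, natDegree_pow] at hds
    omega
  have hg : g ≠ 0 := by
    rintro rfl
    simp at hdg
    omega
  have hlc : a * h.leadingCoeff ^ 2 = b * g.leadingCoeff ^ 2 := by
    have h3 : (C a * h ^ 2 + r).leadingCoeff = (C b * g ^ 2).leadingCoeff := by rw [he]
    have h4 : (C a * h ^ 2 + r).leadingCoeff = (C a * h ^ 2).leadingCoeff := by
      refine leadingCoeff_add_of_degree_lt' ?_
      exact degree_lt_degree hdlt
    rw [h4, leadingCoeff_mul, leadingCoeff_mul, leadingCoeff_C, leadingCoeff_C, leadingCoeff_pow,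
      leadingCoeff_pow] at h3
    exact h3
  have hg0 : g.leadingCoeff ≠ 0 := leadingCoeff_ne_zero.2 hg
  have hh0 : h.leadingCoeff ≠ 0 := leadingCoeff_ne_zero.2 hh
  obtain ⟨s, hs⟩ : ∃ s, s = h.leadingCoeff / g.leadingCoeff := ⟨_, rfl⟩
  have hs0 : s ≠ 0 := by
    rw [hs]
    exact div_ne_zero hh0 hg0
  have hbs : b = a * s ^ 2 := by
    rw [hs]
    field_simp
    linear_combination -hlc
  have hfac : r = C a * ((C s * g - h) * (C s * g + h)) := by
    have h3 : r = C b * g ^ 2 - C a * h ^ 2 := by rw [← he]; ring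
    rw [h3, hbs, C_mul, C_pow]
    ring
  have hsum : (C s * g + h).natDegree = h.natDegree := by
    have h3 : (C s * g + h).coeff h.natDegree ≠ 0 := by
      rw [coeff_add, coeff_C_mul]
      have h4 : g.coeff h.natDegree = g.leadingCoeff := by rw [leadingCoeff, hdg]
      have h5 : h.coeff h.natDegree = h.leadingCoeff := rfl
      rw [h4, h5, hs, div_mul_cancel₀ _ hg0, ← two_mul]
      exact mul_ne_zero h2 hh0
    apply le_antisymm
    · refine (natDegree_add_le _ _).trans (max_le ?_ le_rfl)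
      rw [natDegree_C_mul hs0, hdg]
    · exact le_natDegree_of_ne_zero h3
  have hne : C s * g - h ≠ 0 := by
    intro h0
    apply hr
    rw [hfac, h0]
    simp
  have hne2 : C s * g + h ≠ 0 := by
    intro h0
    rw [h0, natDegree_zero] at hsum
    omega
  have : h.natDegree ≤ r.natDegree := by
    rw [hfac, natDegree_C_mul ha, natDegree_mul hne hne2, hsum]
    omega
  omega

omit [Fintype F] [DecidableEq F] in
/-- a polynomial of odd degree is not a square -/
lemma ns_odd {D : F[X]} (hD : Odd D.natDegree) : ∀ (b : F) (g : F[X]), D ≠ C b * g ^ 2 := by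
  intro b g he
  by_cases hb : b = 0
  · rw [he, hb] at hD
    simp at hD
  · rw [he, natDegree_C_mul hb, natDegree_pow] at hD
    obtain ⟨e, h⟩ := hD
    omega

/-- **The mean of the trace of the twists.** -/
lemma tw_mean (hF : ringChar F ≠ 2) {g : F[X]} (hg : g.Monic) {n : ℕ} (hn : g.natDegree = n)
    (hodd : Odd n) {D : F[X]} {m : ℕ} (hm : D.natDegree ≤ m) (hD1 : 1 ≤ D.natDegree)
    (hD : ∀ (b : F) (h : F[X]), D ≠ C b * h ^ 2) :
    |∑ c : F, trc F (g.scaleRoots (D.eval c))| ≤ (n * m : ℕ) * (Fintype.card F : ℝ) := by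
  have h1 : ∑ c : F, trc F (g.scaleRoots (D.eval c)) =
      (∑ c : F, (quadraticChar F (D.eval c) : ℝ)) * trc F g := by
    rw [Finset.sum_mul]
    refine Finset.sum_congr rfl fun c _ => ?_
    rw [trc_tw hF hg (by rwa [hn])]
  rw [h1, abs_mul]
  have h2 := Pool.Agent.H341R2.Sharp.weil_sharp hF D hD1 hD
  have h3 := trc_bound hg hn hodd
  rw [Nat.card_eq_fintype_card] at h3
  have h4 : (D.natDegree : ℝ) - 1 ≤ m := by
    have : (D.natDegree : ℝ) ≤ m := by exact_mod_cast hm
    linarith
  have h5 : 0 ≤ √(Fintype.card F : ℝ) := Real.sqrt_nonneg _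
  have h6 : √(Fintype.card F : ℝ) * √(Fintype.card F : ℝ) = Fintype.card F :=
    Real.mul_self_sqrt (Nat.cast_nonneg _)
  calc |∑ c : F, (quadraticChar F (D.eval c) : ℝ)| * |trc F g| ≤
      (m * √(Fintype.card F : ℝ)) * (n * √(Fintype.card F : ℝ)) :=
        mul_le_mul (h2.trans (mul_le_mul_of_nonneg_right h4 h5)) h3 (abs_nonneg _) (by positivity)
    _ = (n * m : ℕ) * (√(Fintype.card F : ℝ) * √(Fintype.card F : ℝ)) := by
        push_cast
        ring
    _ = _ := by rw [h6]

end

section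
variable {k : Type} [Field k] [Fintype k]

/-- the twist by `D(c)` -/
noncomputable def tw (f D : k[X][X]) (c : k[X]) : k[X][X] := f.scaleRoots (D.eval c)

lemma tw_fm {f : k[X][X]} (hf : f.Monic) {n : ℕ} (hn : f.natDegree = n) (D : k[X][X])  : Fm (tw f D) n where
  mon := fun c => (monic_scaleRoots_iff _).2 hf
  deg := fun c => (natDegree_scaleRoots _ _).trans hn
  per := by
    intro P c c' h
    have e1 : Ideal.Quotient.mk (Ideal.span {P}) c = Ideal.Quotient.mk (Ideal.span {P}) c' := by
      rw [mk_eq_iff]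
      exact h
    have e2 : Ideal.Quotient.mk (Ideal.span {P}) (D.eval c) = Ideal.Quotient.mk (Ideal.span {P}) (D.eval c') := by
      rw [← Polynomial.eval_map_apply, ← Polynomial.eval_map_apply, e1]
    ext i
    unfold tw
    rw [coeff_map, coeff_map, coeff_scaleRoots, coeff_scaleRoots, map_mul, map_mul, map_pow, map_pow, e2]

/-- the polynomial `D` is not a square modulo the places outside a small set -/
def NS (D : k[X][X]) (m : ℕ) (B : ℝ) : Prop :=
  (Odd D.natDegree ∧ D.natDegree ≤ m ∧ (D.leadingCoeff.natDegree : ℝ) ≤ B) ∨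
  ∃ (a : k[X]) (h r : k[X][X]) (j : ℕ), D = C a * h ^ 2 + r ∧ r.natDegree < h.natDegree ∧
    2 * h.natDegree ≤ m ∧ a ≠ 0 ∧ r.coeff j ≠ 0 ∧
    ((a.natDegree + h.leadingCoeff.natDegree + (r.coeff j).natDegree : ℕ) : ℝ) ≤ B

/-- the primes that divide a polynomial have small total degree -/
lemma prime_sum {w : k[X]} (hw : w ≠ 0) : ∃ bad : Finset k[X], (∑ P ∈ bad, P.natDegree ≤ w.natDegree) ∧
    ∀ P : k[X], P.Monic → Irreducible P → P ∣ w → P ∈ bad := by
  classical
  have hfin : {P : k[X] | P.Monic ∧ Irreducible P ∧ P ∣ w}.Finite := by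
    have h1 : {P : k[X] | P.Monic ∧ Irreducible P ∧ P ∣ w} ⊆
        ((degreeLT k (w.natDegree + 1) : Submodule k k[X]) : Set k[X]) := by
      rintro P ⟨hm, _, hd⟩
      rw [SetLike.mem_coe, mem_degreeLT]
      refine lt_of_le_of_lt (degree_le_of_dvd hd hw) ?_
      rw [degree_eq_natDegree hw]
      exact_mod_cast Nat.lt_succ_self _
    have : Finite (degreeLT k (w.natDegree + 1)) := inferInstance
    exact (Set.toFinite _).subset h1
  refine ⟨hfin.toFinset, ?_, fun P h1 h2 h3 => hfin.mem_toFinset.2 ⟨h1, h2, h3⟩⟩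
  have hI : ∀ P ∈ hfin.toFinset, P.Monic ∧ Irreducible P ∧ P ∣ w := fun P hP => hfin.mem_toFinset.1 hP
  have hprod : ∏ P ∈ hfin.toFinset, P ∣ w := by
    refine Finset.prod_dvd_of_coprime ?_ fun P hP => (hI P hP).2.2
    intro P hP Q hQ hPQ
    rw [Function.onFun, (hI P hP).2.1.coprime_iff_not_dvd]
    intro hd
    exact hPQ (Polynomial.eq_of_monic_of_associated (hI P hP).1 (hI Q hQ).1
      ((hI P hP).2.1.associated_of_dvd (hI Q hQ).2.1 hd))
  rw [← natDegree_prod_of_monic _ _ fun P hP => (hI P hP).1]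
  exact natDegree_le_of_dvd hprod hw

lemma mk_ne {P a : k[X]} (h : ¬ P ∣ a) : Ideal.Quotient.mk (Ideal.span {P}) a ≠ 0 := by
  rw [Ne, Ideal.Quotient.eq_zero_iff_mem, Ideal.mem_span_singleton]
  exact h

/-- the reductions of `D` are not squares outside a small set -/
lemma NS_red (hch : ringChar k ≠ 2) {D : k[X][X]} {m : ℕ} {B : ℝ} (hD : NS D m B) :
    ∃ bad : Finset k[X], (∑ P ∈ bad, (P.natDegree : ℝ) ≤ B) ∧ ∀ P : k[X], P.Monic → ∀ hP : Irreducible P, P ∉ bad →
      (D.map (Ideal.Quotient.mk (Ideal.span {P}))).natDegree ≤ m ∧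
      1 ≤ (D.map (Ideal.Quotient.mk (Ideal.span {P}))).natDegree ∧
      ∀ (b : Rs P) (g : (Rs P)[X]), D.map (Ideal.Quotient.mk (Ideal.span {P})) ≠ C b * g ^ 2 := by
  rcases hD with ⟨hodd, hm, hB⟩ | ⟨a, h, r, j, hD, hr, hm, ha, hj, hB⟩
  · have hD0 : D ≠ 0 := by
      rintro rfl
      simp at hodd
    obtain ⟨bad, h1, h2⟩ := prime_sum (leadingCoeff_ne_zero.2 hD0)
    refine ⟨bad, le_trans (by exact_mod_cast h1) hB, fun P hPm hP hPb => ?_⟩
    let _ := fldP hP
    have h3 : Ideal.Quotient.mk (Ideal.span {P}) D.leadingCoeff ≠ 0 := mk_ne fun h => hPb (h2 P hPm hP h)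
    have h4 := natDegree_map_of_leadingCoeff_ne_zero (Ideal.Quotient.mk (Ideal.span {P})) h3
    refine ⟨h4.le.trans hm, ?_, ns_odd (by rwa [h4])⟩
    rw [h4]
    exact hodd.pos
  · have hh0 : h ≠ 0 := by
      rintro rfl
      simp at hr
    have hw : a * h.leadingCoeff * r.coeff j ≠ 0 :=
      mul_ne_zero (mul_ne_zero ha (leadingCoeff_ne_zero.2 hh0)) hj
    obtain ⟨bad, h1, h2⟩ := prime_sum hw
    have hB' : ((∑ P ∈ bad, P.natDegree : ℕ) : ℝ) ≤ B := by
      refine le_trans ?_ hB
      rw [natDegree_mul (mul_ne_zero ha (leadingCoeff_ne_zero.2 hh0)) hj,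
        natDegree_mul ha (leadingCoeff_ne_zero.2 hh0)] at h1
      exact_mod_cast h1
    refine ⟨bad, by exact_mod_cast hB', fun P hPm hP hPb => ?_⟩
    let _ := fldP hP
    have hch' : ringChar (Rs P) ≠ 2 := by
      have h3 : ringChar k = ringChar (Rs P) := Algebra.ringChar_eq k (Rs P)
      intro h
      exact hch (h3.trans h)
    have ha' : Ideal.Quotient.mk (Ideal.span {P}) a ≠ 0 := mk_ne fun h' => hPb (h2 P hPm hP
      (dvd_mul_of_dvd_left (dvd_mul_of_dvd_left h' _) _))
    have hh' : Ideal.Quotient.mk (Ideal.span {P}) h.leadingCoeff ≠ 0 := mk_ne fun h' => hPb (h2 P hPm hP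
      (dvd_mul_of_dvd_left (dvd_mul_of_dvd_right h' _) _))
    have hj' : Ideal.Quotient.mk (Ideal.span {P}) (r.coeff j) ≠ 0 := mk_ne fun h' => hPb (h2 P hPm hP
      (dvd_mul_of_dvd_right h' _))
    have hhd := natDegree_map_of_leadingCoeff_ne_zero (Ideal.Quotient.mk (Ideal.span {P})) hh'
    have hr0 : r.map (Ideal.Quotient.mk (Ideal.span {P})) ≠ 0 := by
      intro h0
      apply hj'
      rw [← coeff_map, h0, coeff_zero]
    have hrd : (r.map (Ideal.Quotient.mk (Ideal.span {P}))).natDegree <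
        (h.map (Ideal.Quotient.mk (Ideal.span {P}))).natDegree := by
      rw [hhd]
      exact lt_of_le_of_lt natDegree_map_le hr
    have hmap : D.map (Ideal.Quotient.mk (Ideal.span {P})) =
        C (Ideal.Quotient.mk (Ideal.span {P}) a) * (h.map (Ideal.Quotient.mk (Ideal.span {P}))) ^ 2 +
          r.map (Ideal.Quotient.mk (Ideal.span {P})) := by
      rw [hD]
      simp
    have hns := ns_of hch' ha' hr0 hrd
    have hdeg : (C (Ideal.Quotient.mk (Ideal.span {P}) a) * (h.map (Ideal.Quotient.mk (Ideal.span {P}))) ^ 2 +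
          r.map (Ideal.Quotient.mk (Ideal.span {P}))).natDegree = 2 * h.natDegree := by
      have h5 : (C (Ideal.Quotient.mk (Ideal.span {P}) a) *
          (h.map (Ideal.Quotient.mk (Ideal.span {P}))) ^ 2).natDegree = 2 * h.natDegree := by
        rw [natDegree_C_mul ha', natDegree_pow, hhd]
      rw [natDegree_add_eq_left_of_natDegree_lt, h5]
      rw [h5]
      rw [hhd] at hrd
      omega
    rw [hmap, hdeg]
    exact ⟨hm, by omega, hns⟩

/-- **The means of the traces of the twists.** -/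
lemma tw_means (hch : ringChar k ≠ 2) {f : k[X][X]} (hf : f.Monic) {n : ℕ} (hn : f.natDegree = n) (hodd : Odd n)
    {D : k[X][X]} {m : ℕ} {B : ℝ} (hD : NS D m B) (N : ℕ) : Means N (tw f D) B ((n * m : ℕ) : ℝ) := by
  classical
  obtain ⟨bad, h1, h2⟩ := NS_red hch hD
  refine ⟨bad, h1, fun P hPm hP hN hPb => ?_⟩
  obtain ⟨h3, h4, h5⟩ := h2 P hPm hP hPb
  let _ := fldP hP
  let ft : Fintype (Rs P) := @Fintype.ofFinite _ (fin_quot hPm)
  have hch' : ringChar (Rs P) ≠ 2 := by
    have h3 : ringChar k = ringChar (Rs P) := Algebra.ringChar_eq k (Rs P)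
    intro h
    exact hch (h3.trans h)
  set g := f.map (Ideal.Quotient.mk (Ideal.span {P})) with hg
  have hgm : g.Monic := hf.map _
  have hgn : g.natDegree = n := (hf.natDegree_map _).trans hn
  set D' := D.map (Ideal.Quotient.mk (Ideal.span {P})) with hD'
  have key := tw_mean hch' hgm hgn hodd h3 h4 h5
  have hres := mV_res hPm hN (fun a b : Rs P => trc (Rs P) (g.scaleRoots (D'.eval b))) 0 0
  simp only [zero_add] at hres
  have e : muG N (tw f D) P = mV N (fun v => trc (Rs P)
      (g.scaleRoots (D'.eval (Ideal.Quotient.mk (Ideal.span {P}) v.2)))) := by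
    unfold muG
    congr 1
    funext v
    unfold YG
    rw [trP_eq _ hPm hP]
    congr 1
    unfold gg tw
    rw [map_scaleRoots _ _ _ (by
      rw [hf.leadingCoeff, map_one]
      exact one_ne_zero), hD', Polynomial.eval_map_apply]
    simp [hg]
  rw [e, hres]
  have hc : (0 : ℝ) < Fintype.card (Rs P) := by exact_mod_cast Fintype.card_pos
  rw [Finset.sum_const, card_univ, nsmul_eq_mul, abs_div, abs_of_nonneg (by positivity :
    (0 : ℝ) ≤ (Fintype.card (Rs P) : ℝ) ^ 2), div_le_iff₀ (by positivity), abs_mul, abs_of_pos hc]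
  calc (Fintype.card (Rs P) : ℝ) * |∑ b : Rs P, trc (Rs P) (g.scaleRoots (D'.eval b))| ≤
      Fintype.card (Rs P) * (((n * m : ℕ) : ℝ) * (Fintype.card (Rs P) : ℝ)) :=
        mul_le_mul_of_nonneg_left key hc.le
    _ = _ := by
      ring

end

end Pool.Agent.J4H77.RK
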