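import Pool.Agent.J4H77.RK.Main
import Pool.Agent.J4H77.RK.Ht

set_option autoImplicit false
set_option linter.all false

/-! Weierstrass equations over `F[t]`: the completed square and the dependence on one coefficient. -/

namespace Pool.Agent.J4H77.RK.Wm

open Polynomial Pool.Agent.N430.BP Pool.Agent.N430.BP.FF Pool.Agent.N430.RT

variable {F : Type} [Field F]

/-- the completed square -/
noncomputable def sqv (a : Fin 5 → F[X]) : F[X][X] :=
  X ^ 3 + C (a 1) * X ^ 2 + C (a 3) * X + C (a 4) + C (C (4 : F)⁻¹) * (C (a 0) * X + C (a 2)) ^ 2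

/-- the curve -/
def crv {R : Type} (a : Fin 5 → R) : WeierstrassCurve R := ⟨a 0, a 1, a 2, a 3, a 4⟩

/-- the affine points -/
def wset (W : WeierstrassCurve F[X]) (P : F[X]) : Set (Rs P × Rs P) :=
  {z | (W.map (Ideal.Quotient.mk (Ideal.span {P}))).toAffine.Equation z.1 z.2}

lemma ncard_eq (h2 : (2 : F) ≠ 0) (a : Fin 5 → F[X]) (P : F[X]) :
    (wset (crv a) P).ncard = (pset (sqv a) 0 0 P).ncard := by
  set φ : F[X] →+* Rs P := Ideal.Quotient.mk (Ideal.span {P}) with hφ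
  set h : Rs P := φ (C (2 : F)⁻¹) with hh
  have hh2 : h * 2 = 1 := by
    have e : (2 : Rs P) = φ (C (2 : F)) := by rw [map_ofNat, map_ofNat]
    rw [hh, e, ← map_mul, ← C_mul, inv_mul_cancel₀ h2, C_1, map_one]
  have h4 : φ (C (4 : F)⁻¹) = h ^ 2 := by
    rw [hh, ← map_pow, ← C_pow]
    congr 2
    have e : (4 : F) = 2 ^ 2 := by norm_num
    rw [e, inv_pow]
  have hinj : Function.Injective (fun z : Rs P × Rs P => (z.1, z.2 + h * (φ (a 0) * z.1 + φ (a 2)))) := by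
    rintro ⟨x, y⟩ ⟨x', y'⟩ hxy
    simp only [Prod.mk.injEq] at hxy
    obtain ⟨rfl, h3⟩ := hxy
    have := add_right_cancel h3
    rw [this]
  rw [← Set.ncard_image_of_injective _ hinj]
  congr 1
  have key : ∀ x y : Rs P, (x, y) ∈ wset (crv a) P ↔ y ^ 2 + φ (a 0) * x * y + φ (a 2) * y =
      x ^ 3 + φ (a 1) * x ^ 2 + φ (a 3) * x + φ (a 4) := by
    intro x y
    unfold wset crv
    rw [Set.mem_ofPred_eq, WeierstrassCurve.Affine.equation_iff]
    rfl
  have key2 : ∀ x y : Rs P, (x, y) ∈ pset (sqv a) 0 0 P ↔ y ^ 2 =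
      x ^ 3 + φ (a 1) * x ^ 2 + φ (a 3) * x + φ (a 4) + h ^ 2 * (φ (a 0) * x + φ (a 2)) ^ 2 := by
    intro x y
    unfold pset sqv
    rw [Set.mem_ofPred_eq]
    simp only [Polynomial.map_add, Polynomial.map_mul, Polynomial.map_pow, Polynomial.map_X,
      Polynomial.map_C, eval_add, eval_mul, eval_pow, eval_X, eval_C, map_zero, zero_mul, add_zero]
    rw [← hφ, h4]
  ext ⟨x, y⟩
  rw [Set.mem_image]
  constructor
  · rintro ⟨⟨x', y'⟩, h3, h5⟩
    simp only [Prod.mk.injEq] at h5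
    obtain ⟨rfl, rfl⟩ := h5
    rw [key] at h3
    rw [key2]
    linear_combination h3 + (φ (a 0) * x' + φ (a 2)) * y' * hh2
  · intro h3
    rw [key2] at h3
    refine ⟨(x, y - h * (φ (a 0) * x + φ (a 2))), ?_, ?_⟩
    · rw [key]
      linear_combination h3 + (- (φ (a 0) * x + φ (a 2)) * y + h * (φ (a 0) * x + φ (a 2)) ^ 2) * hh2
    · simp only [Prod.mk.injEq, true_and]
      ring

lemma four_ne (h2 : (2 : F) ≠ 0) : (4 : F) ≠ 0 := by
  have e : (4 : F) = 2 * 2 := by norm_num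
  rw [e]
  exact mul_ne_zero h2 h2

lemma monic_deg (p : F[X][X]) (hp : p.natDegree < 3) : (X ^ 3 + p).Monic ∧ (X ^ 3 + p).natDegree = 3 := by
  have hlt : p.degree < (X ^ 3 : F[X][X]).degree := by
    rw [degree_X_pow]
    refine lt_of_le_of_lt degree_le_natDegree ?_
    exact_mod_cast hp
  refine ⟨(monic_X_pow 3).add_of_left hlt, ?_⟩
  rw [natDegree_add_eq_left_of_degree_lt hlt, natDegree_X_pow]

lemma quad_deg (a b c : F[X]) : (C a * X ^ 2 + C b * X + C c : F[X][X]).natDegree < 3 :=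
  lt_of_le_of_lt natDegree_quadratic_le (by norm_num)

/-- **The dependence on one coefficient.** -/
lemma family (h2 : (2 : F) ≠ 0) (a : Fin 5 → F[X]) (i : Fin 5) (w : F[X]) :
    ∃ f0 f1 f2 : F[X][X], f0.Monic ∧ f0.natDegree = 3 ∧ f1.natDegree < 3 ∧ f2.natDegree < 3 ∧
      (∃ j, (dsc f0 f1 f2).coeff j = w ^ 2 ∨ (dsc f0 f1 f2).coeff j = - w ^ 2) ∧
      ∀ c : F[X], sqv (Function.update a i (c * w)) = fam f0 f1 f2 c := by
  set h : F[X] := C (4 : F)⁻¹ with hh
  have h4 : h * 4 = 1 := by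
    have e : (4 : F[X]) = C (4 : F) := (map_ofNat C 4).symm
    rw [hh, e, ← C_mul, inv_mul_cancel₀ (four_ne h2), C_1]
  have hsq : ∀ a0 a1 a2 a3 a4 : F[X], (X ^ 3 + C a1 * X ^ 2 + C a3 * X + C a4 +
      C h * (C a0 * X + C a2) ^ 2 : F[X][X]) = X ^ 3 + (C (a1 + h * a0 ^ 2) * X ^ 2 +
      C (a3 + h * (2 * a0 * a2)) * X + C (a4 + h * a2 ^ 2)) := by
    intro a0 a1 a2 a3 a4
    simp only [map_add, map_mul, map_pow, map_ofNat]
    ring
  have hm : ∀ a0 a1 a2 a3 a4 : F[X], (X ^ 3 + C a1 * X ^ 2 + C a3 * X + C a4 +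
      C h * (C a0 * X + C a2) ^ 2 : F[X][X]).Monic ∧ (X ^ 3 + C a1 * X ^ 2 + C a3 * X + C a4 +
      C h * (C a0 * X + C a2) ^ 2 : F[X][X]).natDegree = 3 := by
    intro a0 a1 a2 a3 a4
    rw [hsq]
    exact monic_deg _ (quad_deg _ _ _)
  have hdeg : ∀ x y z : F[X], (C x * X ^ 2 + C y * X + C z : F[X][X]).natDegree < 3 := quad_deg
  have hu : ∀ b : F[X], sqv (Function.update a i b) =
      X ^ 3 + C (Function.update a i b 1) * X ^ 2 + C (Function.update a i b 3) * X +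
      C (Function.update a i b 4) +
      C h * (C (Function.update a i b 0) * X + C (Function.update a i b 2)) ^ 2 := fun b => rfl
  fin_cases i
  · -- a₁
    refine ⟨X ^ 3 + C (a 1) * X ^ 2 + C (a 3) * X + C (a 4) + C h * (C 0 * X + C (a 2)) ^ 2,
      C 0 * X ^ 2 + C (2 * h * w * a 2) * X + C 0, C (h * w ^ 2) * X ^ 2 + C 0 * X + C 0,
      (hm _ _ _ _ _).1, (hm _ _ _ _ _).2, hdeg _ _ _, hdeg _ _ _, ⟨5, Or.inr ?_⟩, ?_⟩
    · have e : dsc (X ^ 3 + C (a 1) * X ^ 2 + C (a 3) * X + C (a 4) + C h * (C 0 * X + C (a 2)) ^ 2)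
          (C 0 * X ^ 2 + C (2 * h * w * a 2) * X + C 0) (C (h * w ^ 2) * X ^ 2 + C 0 * X + C 0) =
          C (-(h * 4) * w ^ 2) * X ^ 5 + C (-(4 * h * w ^ 2 * a 1)) * X ^ 4 +
          C (-(4 * h * w ^ 2 * a 3)) * X ^ 3 + C (-(4 * h * w ^ 2 * a 4)) * X ^ 2 := by
        unfold dsc
        simp only [map_add, map_mul, map_pow, map_ofNat, map_neg, map_zero]
        ring
      rw [e, h4]
      simp only [coeff_add, coeff_C_mul, coeff_X_pow]
      norm_num
    · intro c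
      rw [hu]
      unfold fam
      simp only [Fin.zero_eta, Function.update_self, ne_eq, one_ne_zero, not_false_eq_true,
        Function.update_of_ne, Fin.reduceEq, map_mul, map_pow, map_zero, map_ofNat]
      ring
  · -- a₂
    refine ⟨X ^ 3 + C 0 * X ^ 2 + C (a 3) * X + C (a 4) + C h * (C (a 0) * X + C (a 2)) ^ 2,
      C w * X ^ 2 + C 0 * X + C 0, C 0 * X ^ 2 + C 0 * X + C 0,
      (hm _ _ _ _ _).1, (hm _ _ _ _ _).2, hdeg _ _ _, hdeg _ _ _, ⟨4, Or.inl ?_⟩, ?_⟩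
    · have e : dsc (X ^ 3 + C 0 * X ^ 2 + C (a 3) * X + C (a 4) + C h * (C (a 0) * X + C (a 2)) ^ 2)
          (C w * X ^ 2 + C 0 * X + C 0) (C 0 * X ^ 2 + C 0 * X + C 0) = C (w ^ 2) * X ^ 4 := by
        unfold dsc
        simp only [map_add, map_mul, map_pow, map_ofNat, map_neg, map_zero]
        ring
      rw [e]
      simp only [coeff_C_mul, coeff_X_pow]
      norm_num
    · intro c
      rw [hu]
      unfold fam
      simp only [Fin.mk_one, Function.update_self, ne_eq, not_false_eq_true, zero_ne_one,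
        Function.update_of_ne, Fin.reduceEq, map_mul, map_pow, map_zero, map_ofNat]
      ring
  · -- a₃
    refine ⟨X ^ 3 + C (a 1) * X ^ 2 + C (a 3) * X + C (a 4) + C h * (C (a 0) * X + C 0) ^ 2,
      C 0 * X ^ 2 + C (2 * h * w * a 0) * X + C 0, C 0 * X ^ 2 + C 0 * X + C (h * w ^ 2),
      (hm _ _ _ _ _).1, (hm _ _ _ _ _).2, hdeg _ _ _, hdeg _ _ _, ⟨3, Or.inr ?_⟩, ?_⟩
    · have e : dsc (X ^ 3 + C (a 1) * X ^ 2 + C (a 3) * X + C (a 4) + C h * (C (a 0) * X + C 0) ^ 2)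
          (C 0 * X ^ 2 + C (2 * h * w * a 0) * X + C 0) (C 0 * X ^ 2 + C 0 * X + C (h * w ^ 2)) =
          C (-(h * 4) * w ^ 2) * X ^ 3 + C (-(4 * h * w ^ 2 * a 1)) * X ^ 2 +
          C (-(4 * h * w ^ 2 * a 3)) * X + C (-(4 * h * w ^ 2 * a 4)) := by
        unfold dsc
        simp only [map_add, map_mul, map_pow, map_ofNat, map_neg, map_zero]
        ring
      rw [e, h4]
      simp only [coeff_add, coeff_C_mul, coeff_X_pow, coeff_X, coeff_C]
      norm_num
    · intro c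
      rw [hu]
      unfold fam
      simp only [Fin.reduceFinMk, Function.update_self, ne_eq, not_false_eq_true,
        Function.update_of_ne, Fin.reduceEq, map_mul, map_pow, map_zero, map_ofNat]
      ring
  · -- a₄
    refine ⟨X ^ 3 + C (a 1) * X ^ 2 + C 0 * X + C (a 4) + C h * (C (a 0) * X + C (a 2)) ^ 2,
      C 0 * X ^ 2 + C w * X + C 0, C 0 * X ^ 2 + C 0 * X + C 0,
      (hm _ _ _ _ _).1, (hm _ _ _ _ _).2, hdeg _ _ _, hdeg _ _ _, ⟨2, Or.inl ?_⟩, ?_⟩
    · have e : dsc (X ^ 3 + C (a 1) * X ^ 2 + C 0 * X + C (a 4) + C h * (C (a 0) * X + C (a 2)) ^ 2)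
          (C 0 * X ^ 2 + C w * X + C 0) (C 0 * X ^ 2 + C 0 * X + C 0) = C (w ^ 2) * X ^ 2 := by
        unfold dsc
        simp only [map_add, map_mul, map_pow, map_ofNat, map_neg, map_zero]
        ring
      rw [e]
      simp only [coeff_C_mul, coeff_X_pow]
      norm_num
    · intro c
      rw [hu]
      unfold fam
      simp only [Fin.reduceFinMk, Function.update_self, ne_eq, not_false_eq_true,
        Function.update_of_ne, Fin.reduceEq, map_mul, map_pow, map_zero, map_ofNat]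
      ring
  · -- a₆
    refine ⟨X ^ 3 + C (a 1) * X ^ 2 + C (a 3) * X + C 0 + C h * (C (a 0) * X + C (a 2)) ^ 2,
      C 0 * X ^ 2 + C 0 * X + C w, C 0 * X ^ 2 + C 0 * X + C 0,
      (hm _ _ _ _ _).1, (hm _ _ _ _ _).2, hdeg _ _ _, hdeg _ _ _, ⟨0, Or.inl ?_⟩, ?_⟩
    · have e : dsc (X ^ 3 + C (a 1) * X ^ 2 + C (a 3) * X + C 0 + C h * (C (a 0) * X + C (a 2)) ^ 2)
          (C 0 * X ^ 2 + C 0 * X + C w) (C 0 * X ^ 2 + C 0 * X + C 0) = C (w ^ 2) := by
        unfold dsc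
        simp only [map_add, map_mul, map_pow, map_ofNat, map_neg, map_zero]
        ring
      rw [e, coeff_C_zero]
    · intro c
      rw [hu]
      unfold fam
      simp only [Fin.reduceFinMk, Function.update_self, ne_eq, not_false_eq_true,
        Function.update_of_ne, Fin.reduceEq, map_mul, map_pow, map_zero, map_ofNat]
      ring

end Pool.Agent.J4H77.RK.Wm
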