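import Pool.Agent.J4H77.RK.Wm

set_option autoImplicit false
set_option linter.all false

/-! One coefficient runs over the rational functions of bounded height. -/

namespace Pool.Agent.J4H77.RK.Wr

open Polynomial Pool.Agent.N430.BP Pool.Agent.N430.BP.FF Pool.Agent.N430.RT
open Pool.Agent.J4H77.RK.Ht Pool.Agent.J4H77.RK.Wm

/-- the weights of the coefficients -/
def wt : Fin 5 → ℕ := ![1, 2, 3, 4, 6]

lemma wt_pos (i : Fin 5) : 1 ≤ wt i ∧ wt i ≤ 6 := by
  fin_cases i <;> simp [wt]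

variable {F : Type} [Field F]

/-- the common denominator -/
noncomputable def den (v : Fin 5 → RatFunc F) : F[X] := ∏ i, (v i).denom

/-- the integral model -/
noncomputable def mdl (v : Fin 5 → RatFunc F) : Fin 5 → F[X] :=
  fun i => ((algebraMap F[X] (RatFunc F) (den v)) ^ wt i * v i).num

/-- the product of the other denominators -/
noncomputable def oth (v : Fin 5 → RatFunc F) (i : Fin 5) : F[X] := ∏ j ∈ Finset.univ \ {i}, (v j).denom

lemma den_update (v : Fin 5 → RatFunc F) (i : Fin 5) (s : RatFunc F) :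
    den (Function.update v i s) = s.denom * oth v i := by
  unfold den oth
  have e : ∀ j, (Function.update v i s j).denom = Function.update (fun j => (v j).denom) i s.denom j := by
    intro j
    by_cases h : j = i
    · subst h
      rw [Function.update_self, Function.update_self]
    · rw [Function.update_of_ne h, Function.update_of_ne h]
  rw [Finset.prod_congr rfl fun j _ => e j, Finset.prod_update_of_mem (Finset.mem_univ i)]

/-- the coefficient of the numerator -/
noncomputable def cof (v : Fin 5 → RatFunc F) (i : Fin 5) (d : F[X]) : F[X] := oth v i ^ wt i * d ^ (wt i - 1)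

/-- the other coefficients -/
noncomputable def bas (v : Fin 5 → RatFunc F) (i : Fin 5) (d : F[X]) : Fin 5 → F[X] :=
  fun j => ((algebraMap F[X] (RatFunc F) (d * oth v i)) ^ wt j * v j).num

lemma mdl_update (v : Fin 5 → RatFunc F) (i : Fin 5) (s : RatFunc F) :
    mdl (Function.update v i s) = Function.update (bas v i s.denom) i (s.num * cof v i s.denom) := by
  funext j
  unfold mdl
  rw [den_update]
  by_cases h : j = i
  · subst h
    rw [Function.update_self, Function.update_self]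
    have h1 : algebraMap F[X] (RatFunc F) s.denom ≠ 0 := RatFunc.algebraMap_ne_zero (RatFunc.denom_ne_zero s)
    have h2 : (algebraMap F[X] (RatFunc F) (s.denom * oth v j)) ^ wt j * s =
        algebraMap F[X] (RatFunc F) (s.num * cof v j s.denom) := by
      have h3 : s = algebraMap F[X] (RatFunc F) s.num / algebraMap F[X] (RatFunc F) s.denom :=
        (RatFunc.num_div_denom s).symm
      have h4 : (algebraMap F[X] (RatFunc F) s.denom) ^ wt j =
          (algebraMap F[X] (RatFunc F) s.denom) ^ (wt j - 1) * algebraMap F[X] (RatFunc F) s.denom := by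
        rw [← pow_succ]
        congr 1
        have := (wt_pos j).1
        omega
      unfold cof
      rw [map_mul, map_mul, map_mul, map_pow, map_pow, mul_pow, h4]
      have h5 : algebraMap F[X] (RatFunc F) s.denom * s = algebraMap F[X] (RatFunc F) s.num := by
        have h6 := RatFunc.num_div_denom s
        rw [div_eq_iff h1] at h6
        rw [h6]
        ring
      linear_combination ((algebraMap F[X] (RatFunc F) s.denom) ^ (wt j - 1) *
        (algebraMap F[X] (RatFunc F) (oth v j)) ^ wt j) * h5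
    rw [h2, RatFunc.num_algebraMap]
  · rw [Function.update_of_ne h, Function.update_of_ne h]
    rfl

lemma oth_ne (v : Fin 5 → RatFunc F) (i : Fin 5) : oth v i ≠ 0 :=
  Finset.prod_ne_zero_iff.2 fun j _ => RatFunc.denom_ne_zero _

lemma cof_ne (v : Fin 5 → RatFunc F) (i : Fin 5) {d : F[X]} (hd : d ≠ 0) : cof v i d ≠ 0 :=
  mul_ne_zero (pow_ne_zero _ (oth_ne v i)) (pow_ne_zero _ hd)

lemma oth_deg {v : Fin 5 → RatFunc F} {B : ℝ} (hB : 0 ≤ B) (h : ∀ j, (hgt (v j) : ℝ) ≤ B) (i : Fin 5) :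
    ((oth v i).natDegree : ℝ) ≤ 4 * B := by
  have h1 : (oth v i).natDegree = ∑ j ∈ Finset.univ \ {i}, (v j).denom.natDegree :=
    natDegree_prod _ _ fun j _ => RatFunc.denom_ne_zero _
  rw [h1]
  push_cast
  have h2 : ∀ j ∈ (Finset.univ \ {i} : Finset (Fin 5)), ((v j).denom.natDegree : ℝ) ≤ B := by
    intro j _
    refine le_trans ?_ (h j)
    unfold hgt
    exact_mod_cast le_max_right _ _
  refine (Finset.sum_le_card_nsmul _ _ _ h2).trans (le_of_eq ?_)
  rw [nsmul_eq_mul]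
  congr 1
  have h3 : (Finset.univ \ {i} : Finset (Fin 5)).card = 4 := by
    rw [← Finset.compl_eq_univ_sdiff, Finset.card_compl, Finset.card_singleton, Fintype.card_fin]
  rw [h3]
  norm_num

lemma cof_deg {v : Fin 5 → RatFunc F} {κ : ℝ} {n : ℕ} (hκ : 1 ≤ κ) (h : ∀ j, (hgt (v j) : ℝ) ≤ κ * n)
    (i : Fin 5) {d : F[X]} (hd : d ≠ 0) (hdn : d.natDegree ≤ n) :
    ((cof v i d ^ 2).natDegree : ℝ) ≤ 60 * κ * n := by
  have hn : (0 : ℝ) ≤ n := Nat.cast_nonneg _
  have hB : 0 ≤ κ * n := by positivity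
  have h1 := oth_deg hB h i
  have h2 : (cof v i d ^ 2).natDegree = 2 * (wt i * (oth v i).natDegree + (wt i - 1) * d.natDegree) := by
    unfold cof
    rw [natDegree_pow, natDegree_mul (pow_ne_zero _ (oth_ne v i)) (pow_ne_zero _ hd), natDegree_pow,
      natDegree_pow]
  have h3 := wt_pos i
  have h4 : wt i * (oth v i).natDegree ≤ 6 * (oth v i).natDegree := Nat.mul_le_mul_right _ h3.2
  have h5 : (wt i - 1) * d.natDegree ≤ 5 * n := Nat.mul_le_mul (by omega) hdn
  have h6 : (cof v i d ^ 2).natDegree ≤ 2 * (6 * (oth v i).natDegree + 5 * n) := by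
    rw [h2]
    omega
  have h7 : ((cof v i d ^ 2).natDegree : ℝ) ≤ 2 * (6 * (oth v i).natDegree + 5 * n) := by exact_mod_cast h6
  nlinarith

/-- **One coefficient runs over the rational functions of height at most `n`.** -/
theorem fiber {κ : ℝ} (hκ : 1 ≤ κ) : ∃ k K : ℝ, 0 < k ∧ 0 < K ∧
    ∀ (F : Type) [Field F] [Fintype F], ringChar F ≠ 2 → ∀ n : ℕ, 1 ≤ n → ∀ v : Fin 5 → RatFunc F,
      (∀ j, (hgt (v j) : ℝ) ≤ κ * n) → ∀ (i : Fin 5) (z : ℂ), ‖z‖ = 1 → ∀ R : ℕ, 1 ≤ R →
      ∀ T : Set (RatFunc F), (∀ s ∈ T, hgt s ≤ n ∧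
        ∃ (E : ED (sqv (mdl (Function.update v i s))) 0 0 2 (150 * (κ * n))) (S : Finset (Fin E.D)),
          (∀ l ∈ S, ‖E.α l / (Fintype.card F : ℂ) - z‖ ≤ 1 / ((n + 1 : ℕ) : ℝ)) ∧ R ≤ S.card) →
        T.Finite ∧ (T.ncard : ℝ) ≤ K * (R : ℝ) ^ (-(k * R)) * (({x : RatFunc F | hgt x ≤ n}).ncard : ℝ) := by
  classical
  obtain ⟨c, C, hc, hC, h⟩ := main_pencil 3 2 (by omega) (by decide) (by omega) (κ := 150 * κ) (by linarith)
  refine ⟨c, 4 * C, hc, by positivity, fun F _ _ h2 n hn v hv i z hz R hR T hT => ?_⟩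
  have hnr : (1 : ℝ) ≤ n := by exact_mod_cast hn
  have h2F : (2 : F) ≠ 0 := Ring.two_ne_zero h2
  have hRr : (1 : ℝ) ≤ R := by exact_mod_cast hR
  have hpos : 0 < C * (R : ℝ) ^ (-(c * R)) * (Fintype.card F : ℝ) ^ (n + 1) := by
    have : (0 : ℝ) < Fintype.card F := by exact_mod_cast Fintype.card_pos
    positivity
  set B : ℝ := C * (R : ℝ) ^ (-(c * R)) * (Fintype.card F : ℝ) ^ (n + 1) with hB
  have key : ∀ d : F[X], d.Monic → d.natDegree ≤ n →
      ({c : F[X] | ∃ x ∈ T, x.num = c ∧ x.denom = d}).ncard ≤ ⌊B⌋₊ := by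
    intro d hd hdn
    obtain ⟨f0, f1, f2, h3, h4, h5, h6, ⟨j, hj⟩, h7⟩ := family h2F (bas v i d) i (cof v i d)
    have hcne : cof v i d ^ 2 ≠ 0 := pow_ne_zero 2 (cof_ne v i hd.ne_zero)
    have hcd := cof_deg hκ hv i hd.ne_zero hdn
    have h8 : (∃ j, (dsc f0 f1 f2).coeff j ≠ 0 ∧
        (((dsc f0 f1 f2).coeff j).natDegree : ℝ) ≤ 150 * κ * (n + 1 : ℕ)) := by
      have h9 : 60 * κ * n ≤ 150 * κ * (n + 1 : ℕ) := by
        push_cast
        nlinarith
      refine ⟨j, ?_⟩
      rcases hj with hj | hj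
      · rw [hj]
        exact ⟨hcne, hcd.trans h9⟩
      · rw [hj, natDegree_neg]
        exact ⟨neg_ne_zero.2 hcne, hcd.trans h9⟩
    have h9 := h F h2 (n + 1) (by omega) f0 f1 f2 h3 h4 h5 h6 h8 z hz R hR
    refine Nat.le_floor ?_
    refine le_trans ?_ h9
    have h10 : {c : F[X] | ∃ x ∈ T, x.num = c ∧ x.denom = d} ⊆
        (((many2 F (n + 1) f0 f1 f2 2 (150 * κ) z R).image fun c : degreeLT F (n + 1) => (c : F[X]) :
          Finset F[X]) : Set F[X]) := by
      rintro c' ⟨x, hx, hxn, hxd⟩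
      obtain ⟨hh, E, S, hS, hRS⟩ := hT x hx
      have hcd' : c'.degree < ((n + 1 : ℕ) : WithBot ℕ) := by
        unfold hgt at hh
        rw [← hxn]
        refine lt_of_le_of_lt degree_le_natDegree ?_
        exact_mod_cast (by omega : x.num.natDegree < n + 1)
      rw [Finset.mem_coe, Finset.mem_image]
      refine ⟨⟨c', mem_degreeLT.2 hcd'⟩, ?_, rfl⟩
      unfold many2
      rw [Finset.mem_filter]
      refine ⟨Finset.mem_univ _, ?_⟩
      have e : sqv (mdl (Function.update v i x)) = fam f0 f1 f2 c' := by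
        rw [mdl_update, hxn, hxd, h7]
      have hKle : 150 * (κ * n) ≤ 150 * κ * (n + 1 : ℕ) := by
        push_cast
        nlinarith
      have tr : ∀ f' : F[X][X], sqv (mdl (Function.update v i x)) = f' →
          ∃ (E' : ED f' 0 0 2 (150 * κ * (n + 1 : ℕ))) (S : Finset (Fin E'.D)),
            (∀ l ∈ S, ‖E'.α l / (Fintype.card F : ℂ) - z‖ ≤ 1 / ((n + 1 : ℕ) : ℝ)) ∧ R ≤ S.card := by
        rintro f' rfl
        exact ⟨{ E with hD := E.hD.trans hKle, hD' := E.hD'.trans hKle, hbad := E.hbad.trans hKle }, S, hS, hRS⟩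
      exact tr _ e
    have h11 := Set.ncard_le_ncard h10 (Finset.finite_toSet _)
    rw [Set.ncard_coe_finset] at h11
    have h12 := h11.trans Finset.card_image_le
    exact_mod_cast h12
  obtain ⟨h3, h4⟩ := count_le T (fun x hx => (hT x hx).1) key
  refine ⟨h3, ?_⟩
  have hq3 : 3 ≤ Nat.card F := by
    have h5 := card_two (F := F)
    rcases h5.lt_or_eq with h5 | h5
    · omega
    · exfalso
      apply h2F
      rw [Nat.card_eq_fintype_card] at h5
      have h6 : ((Fintype.card F : ℕ) : F) = 0 := Nat.cast_card_eq_zero F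
      rw [← h5] at h6
      exact_mod_cast h6
  have h5 := card_ge hq3 n
  have h6 : (T.ncard : ℝ) ≤ 2 * (Nat.card F : ℝ) ^ n * (⌊B⌋₊ : ℝ) := by exact_mod_cast h4
  have h7 : ((Nat.card F : ℝ)) ^ (2 * n + 1) ≤ 2 * (({x : RatFunc F | hgt x ≤ n}).ncard : ℝ) := by
    exact_mod_cast h5
  have h8 : (⌊B⌋₊ : ℝ) ≤ B := Nat.floor_le hpos.le
  have h9 : (0 : ℝ) ≤ (Nat.card F : ℝ) ^ n := by positivity
  have h10 : 2 * (Nat.card F : ℝ) ^ n * B = 2 * (C * (R : ℝ) ^ (-(c * R))) * (Nat.card F : ℝ) ^ (2 * n + 1) := by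
    rw [hB, Nat.card_eq_fintype_card]
    ring
  have h11 : (0 : ℝ) ≤ C * (R : ℝ) ^ (-(c * R)) := by positivity
  calc (T.ncard : ℝ) ≤ 2 * (Nat.card F : ℝ) ^ n * (⌊B⌋₊ : ℝ) := h6
    _ ≤ 2 * (Nat.card F : ℝ) ^ n * B := mul_le_mul_of_nonneg_left h8 (by positivity)
    _ = 2 * (C * (R : ℝ) ^ (-(c * R))) * (Nat.card F : ℝ) ^ (2 * n + 1) := h10
    _ ≤ 2 * (C * (R : ℝ) ^ (-(c * R))) * (2 * (({x : RatFunc F | hgt x ≤ n}).ncard : ℝ)) :=
        mul_le_mul_of_nonneg_left h7 (by positivity)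
    _ = _ := by ring

end Pool.Agent.J4H77.RK.Wr
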