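import Pool.Agent.J4H77.RK.Wr

set_option autoImplicit false
set_option linter.all false

/-! All Weierstrass equations of bounded height. -/

namespace Pool.Agent.J4H77.RK.Ws

open Polynomial Pool.Agent.N430.BP Pool.Agent.N430.BP.FF Pool.Agent.N430.RT
open Pool.Agent.J4H77.RK.Ht Pool.Agent.J4H77.RK.Wm Pool.Agent.J4H77.RK.Wr

section
variable {F : Type} [Field F]

lemma hgt_zero : hgt (0 : RatFunc F) = 0 := by
  unfold hgt
  simp

/-- the discriminant as a cubic in `a₄` -/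
lemma disc_cubic (v : Fin 5 → RatFunc F) (s : RatFunc F) : (crv (Function.update v 3 s)).Δ =
    (Cubic.toPoly ⟨-64, (v 0 ^ 2 + 4 * v 1) ^ 2 - 96 * (v 0 * v 2),
      (v 0 ^ 2 + 4 * v 1) ^ 2 * (v 0 * v 2) - 48 * (v 0 * v 2) ^ 2 +
        18 * (v 0 ^ 2 + 4 * v 1) * (v 2 ^ 2 + 4 * v 4),
      -(v 0 ^ 2 + 4 * v 1) ^ 2 * (v 0 ^ 2 * v 4 + 4 * v 1 * v 4 + v 1 * v 2 ^ 2) - 8 * (v 0 * v 2) ^ 3 -
        27 * (v 2 ^ 2 + 4 * v 4) ^ 2 +
        9 * (v 0 ^ 2 + 4 * v 1) * (v 2 ^ 2 + 4 * v 4) * (v 0 * v 2)⟩ : (RatFunc F)[X]).eval s := by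
  unfold crv WeierstrassCurve.Δ WeierstrassCurve.b₂ WeierstrassCurve.b₄ WeierstrassCurve.b₆
    WeierstrassCurve.b₈ Cubic.toPoly
  simp only [ne_eq, Fin.reduceEq, not_false_eq_true, Function.update_of_ne, Function.update_self,
    eval_add, eval_mul, eval_C, eval_pow, eval_X]
  ring

lemma disc_le (h2 : (2 : F) ≠ 0) (v : Fin 5 → RatFunc F) :
    ({s : RatFunc F | (crv (Function.update v 3 s)).Δ = 0}).Finite ∧
      ({s : RatFunc F | (crv (Function.update v 3 s)).Δ = 0}).ncard ≤ 3 := by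
  classical
  set P : Cubic (RatFunc F) := ⟨-64, (v 0 ^ 2 + 4 * v 1) ^ 2 - 96 * (v 0 * v 2),
      (v 0 ^ 2 + 4 * v 1) ^ 2 * (v 0 * v 2) - 48 * (v 0 * v 2) ^ 2 +
        18 * (v 0 ^ 2 + 4 * v 1) * (v 2 ^ 2 + 4 * v 4),
      -(v 0 ^ 2 + 4 * v 1) ^ 2 * (v 0 ^ 2 * v 4 + 4 * v 1 * v 4 + v 1 * v 2 ^ 2) - 8 * (v 0 * v 2) ^ 3 -
        27 * (v 2 ^ 2 + 4 * v 4) ^ 2 +
        9 * (v 0 ^ 2 + 4 * v 1) * (v 2 ^ 2 + 4 * v 4) * (v 0 * v 2)⟩ with hP
  have h64 : (-64 : RatFunc F) ≠ 0 := by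
    rw [neg_ne_zero]
    have e : (64 : RatFunc F) = algebraMap F (RatFunc F) (2 ^ 6) := by
      rw [map_pow, map_ofNat]
      norm_num
    rw [e, Ne, map_eq_zero]
    exact pow_ne_zero _ h2
  have ha : P.a ≠ 0 := h64
  have hne : P.toPoly ≠ 0 := Cubic.ne_zero_of_a_ne_zero ha
  have hsub : {s : RatFunc F | (crv (Function.update v 3 s)).Δ = 0} ⊆ (P.toPoly.roots.toFinset : Set (RatFunc F)) := by
    intro s hs
    have hs' : (crv (Function.update v 3 s)).Δ = 0 := hs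
    rw [disc_cubic] at hs'
    rw [Finset.mem_coe, Multiset.mem_toFinset, mem_roots hne]
    exact hs'
  refine ⟨(Finset.finite_toSet _).subset hsub, ?_⟩
  have h3 := Set.ncard_le_ncard hsub (Finset.finite_toSet _)
  rw [Set.ncard_coe_finset] at h3
  refine h3.trans ((Multiset.toFinset_card_le _).trans ((card_roots' _).trans ?_))
  rw [Cubic.natDegree_of_a_ne_zero ha]

variable [Finite F]

lemma box_fin (n : ℕ) : ({x : RatFunc F | hgt x ≤ n}).Finite := by
  refine (count_le (n := n) (M := Nat.card F ^ (n + 1)) _ (fun x hx => hx) fun d hd hdn => ?_).1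
  rw [← Lo_card]
  refine Set.ncard_le_ncard ?_ (Lo_fin _)
  rintro c ⟨x, hx, rfl, -⟩
  have hx' : hgt x ≤ n := hx
  unfold hgt at hx'
  show x.num.degree < ((n + 1 : ℕ) : WithBot ℕ)
  refine lt_of_le_of_lt degree_le_natDegree ?_
  exact_mod_cast (by omega : x.num.natDegree < n + 1)

open Classical in
/-- **Double counting.** -/
lemma dbl (n : ℕ) (A T : Finset (Fin 5 → RatFunc F)) (hT : T ⊆ A)
    (h1 : ∀ v ∈ A, ∀ s, hgt s ≤ n → Function.update v 3 s ∈ A) (h2 : ∀ v ∈ A, hgt (v 3) ≤ n) :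
    T.card * ({x : RatFunc F | hgt x ≤ n}).ncard =
      ∑ v ∈ A, (((box_fin n).toFinset (α := RatFunc F)).filter fun s => Function.update v 3 s ∈ T).card := by
  set B : Finset (RatFunc F) := (box_fin n).toFinset with hB
  have hmB : ∀ s, s ∈ B ↔ hgt s ≤ n := by
    intro s
    rw [hB, Set.Finite.mem_toFinset]
    rfl
  have hBc : ({x : RatFunc F | hgt x ≤ n}).ncard = B.card := Set.ncard_eq_toFinset_card _ (box_fin n)
  rw [hBc, ← Finset.card_product]
  have h3 : ∑ v ∈ A, (B.filter fun s => Function.update v 3 s ∈ T).card =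
      ((A ×ˢ B).filter fun p => Function.update p.1 3 p.2 ∈ T).card := by
    rw [Finset.card_filter, Finset.sum_product]
    refine Finset.sum_congr rfl fun v _ => ?_
    rw [Finset.card_filter]
  rw [h3]
  refine Finset.card_nbij' (fun p => (Function.update p.1 3 p.2, p.1 3))
    (fun p => (Function.update p.1 3 p.2, p.1 3)) ?_ ?_ ?_ ?_
  · rintro ⟨t, s⟩ hp
    rw [Finset.mem_coe, Finset.mem_product] at hp
    rw [Finset.mem_coe, Finset.mem_filter, Finset.mem_product]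
    simp only at hp ⊢
    refine ⟨⟨h1 t (hT hp.1) s ((hmB s).1 hp.2), (hmB _).2 (h2 t (hT hp.1))⟩, ?_⟩
    rw [Function.update_idem, Function.update_eq_self]
    exact hp.1
  · rintro ⟨v, s⟩ hp
    rw [Finset.mem_coe, Finset.mem_filter, Finset.mem_product] at hp
    rw [Finset.mem_coe, Finset.mem_product]
    simp only at hp ⊢
    exact ⟨hp.2, (hmB _).2 (h2 v hp.1.1)⟩
  · rintro ⟨t, s⟩ _
    simp
  · rintro ⟨v, s⟩ _
    simp

open Classical in
/-- the bound of a subset by its fibres -/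
lemma dbl_le (n : ℕ) (A T : Finset (Fin 5 → RatFunc F)) (hT : T ⊆ A)
    (h1 : ∀ v ∈ A, ∀ s, hgt s ≤ n → Function.update v 3 s ∈ A) (h2 : ∀ v ∈ A, hgt (v 3) ≤ n)
    {x : ℝ} (hx : ∀ v ∈ A, ((((box_fin n).toFinset (α := RatFunc F)).filter fun s =>
      Function.update v 3 s ∈ T).card : ℝ) ≤ x * (({x : RatFunc F | hgt x ≤ n}).ncard : ℝ))
    (hN : 0 < ({x : RatFunc F | hgt x ≤ n}).ncard) : (T.card : ℝ) ≤ x * A.card := by
  have h3 := dbl n A T hT h1 h2
  set N := ({x : RatFunc F | hgt x ≤ n}).ncard with hNd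
  have hNr : (0 : ℝ) < N := by exact_mod_cast hN
  have h4 : (T.card : ℝ) * N = ∑ v ∈ A, ((((box_fin n).toFinset (α := RatFunc F)).filter fun s =>
      Function.update v 3 s ∈ T).card : ℝ) := by exact_mod_cast h3
  have h5 : (T.card : ℝ) * N ≤ ∑ v ∈ A, x * (N : ℝ) := by
    rw [h4]
    exact Finset.sum_le_sum fun v hv => hx v hv
  rw [Finset.sum_const, nsmul_eq_mul] at h5
  have h6 : (T.card : ℝ) * N ≤ (x * A.card) * N := by linarith
  exact le_of_mul_le_mul_right h6 hNr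

end

lemma pow_sum {k : ℝ} (hk : 0 < k) (M : ℕ) :
    ∑ R ∈ Finset.Icc 1 M, (R : ℝ) ^ (-(k * R)) ≤ 2 ^ k / (1 - (2 : ℝ) ^ (-k)) := by
  set r : ℝ := (2 : ℝ) ^ (-k) with hr
  have hr0 : 0 < r := by positivity
  have hr1 : r < 1 := Real.rpow_lt_one_of_one_lt_of_neg (by norm_num) (by linarith)
  have h1 : ∀ R ∈ Finset.Icc 1 M, (R : ℝ) ^ (-(k * R)) ≤ 2 ^ k * r ^ R := by
    intro R hR
    have hR1 := (Finset.mem_Icc.1 hR).1
    have hRr : (1 : ℝ) ≤ R := by exact_mod_cast hR1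
    rcases eq_or_lt_of_le hR1 with h | h
    · rw [← h, Nat.cast_one, Real.one_rpow, pow_one, hr, ← Real.rpow_add (by norm_num)]
      simp
    · have h2 : (2 : ℝ) ≤ R := by exact_mod_cast h
      have h3 : (R : ℝ) ^ (-(k * R)) = ((R : ℝ) ^ (-k)) ^ R := by
        rw [← Real.rpow_natCast, ← Real.rpow_mul (by linarith)]
        congr 1
        ring
      have h4 : (R : ℝ) ^ (-k) ≤ r := by
        rw [hr]
        exact Real.rpow_le_rpow_of_nonpos (by norm_num) h2 (by linarith)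
      have h5 : ((R : ℝ) ^ (-k)) ^ R ≤ r ^ R := pow_le_pow_left₀ (by positivity) h4 R
      have h6 : (1 : ℝ) ≤ 2 ^ k := Real.one_le_rpow (by norm_num) hk.le
      rw [h3]
      have h7 : 0 ≤ r ^ R := by positivity
      nlinarith
  refine (Finset.sum_le_sum h1).trans ?_
  rw [← Finset.mul_sum, div_eq_mul_inv]
  refine mul_le_mul_of_nonneg_left ?_ (by positivity)
  have h2 : ∑ R ∈ Finset.Icc 1 M, r ^ R ≤ ∑' R : ℕ, r ^ R :=
    (summable_geometric_of_lt_one hr0.le hr1).sum_le_tsum _ fun R _ => by positivity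
  rwa [tsum_geometric_of_lt_one hr0.le hr1] at h2

/-- **A set of equations which is closed under the changes of `a₄`.** -/
theorem box : ∃ k K : ℝ, 0 < k ∧ 0 < K ∧
    ∀ (F : Type) [Field F] [Fintype F], ringChar F ≠ 2 → ∀ n : ℕ, 1 ≤ n →
      ∀ A : Set (Fin 5 → RatFunc F), (∀ v ∈ A, ∀ j, hgt (v j) ≤ n) →
      (∀ v ∈ A, ∀ s, hgt s ≤ n → Function.update v 3 s ∈ A) → ∀ z : ℂ, ‖z‖ = 1 →
      ∀ R : ℕ, 1 ≤ R → ∀ T ⊆ A, (∀ v ∈ T,
        ∃ (E : ED (sqv (mdl v)) 0 0 2 (150 * n)) (S : Finset (Fin E.D)),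
          (∀ l ∈ S, ‖E.α l / (Fintype.card F : ℂ) - z‖ ≤ 1 / ((n + 1 : ℕ) : ℝ)) ∧ R ≤ S.card) →
        (T.ncard : ℝ) ≤ K * (R : ℝ) ^ (-(k * R)) * (({v | v ∈ A ∧ (crv v).Δ ≠ 0}).ncard : ℝ) := by
  classical
  obtain ⟨k, K, hk, hK, h⟩ := fiber (κ := 1) le_rfl
  refine ⟨k, 2 * K, hk, by positivity, fun F _ _ h2 n hn A hA1 hA2 z hz R hR T hTA hT => ?_⟩
  have h2F : (2 : F) ≠ 0 := Ring.two_ne_zero h2
  have hRr : (1 : ℝ) ≤ R := by exact_mod_cast hR
  have hq3 : 3 ≤ Nat.card F := by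
    have h5 := card_two (F := F)
    rcases h5.lt_or_eq with h5 | h5
    · omega
    · exfalso
      apply h2F
      rw [Nat.card_eq_fintype_card] at h5
      have h6 : ((Fintype.card F : ℕ) : F) = 0 := Nat.cast_card_eq_zero F
      rw [← h5] at h6
      exact_mod_cast h6
  have hN : 14 ≤ ({x : RatFunc F | hgt x ≤ n}).ncard := by
    have h5 := card_ge hq3 n
    have h6 : 3 ^ 3 ≤ Nat.card F ^ (2 * n + 1) :=
      (Nat.pow_le_pow_left hq3 3).trans (Nat.pow_le_pow_right (by omega) (by omega))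
    omega
  have hAfin : A.Finite := by
    have hsub : A ⊆ Set.pi Set.univ (fun _ : Fin 5 => {x : RatFunc F | hgt x ≤ n}) := by
      intro v hv j _
      exact hA1 v hv j
    exact (Set.Finite.pi fun _ => box_fin n).subset hsub
  set A' : Finset (Fin 5 → RatFunc F) := hAfin.toFinset with hA'
  have hmA : ∀ v, v ∈ A' ↔ v ∈ A := fun v => Set.Finite.mem_toFinset _
  have hc1 : ∀ v ∈ A', ∀ s, hgt s ≤ n → Function.update v 3 s ∈ A' := by
    intro v hv s hs
    rw [hmA] at hv ⊢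
    exact hA2 v hv s hs
  have hc2 : ∀ v ∈ A', hgt (v 3) ≤ n := fun v hv => hA1 v ((hmA v).1 hv) 3
  have hTfin : T.Finite := hAfin.subset hTA
  set T' : Finset (Fin 5 → RatFunc F) := hTfin.toFinset with hT'
  have hmT : ∀ v, v ∈ T' ↔ v ∈ T := fun v => Set.Finite.mem_toFinset _
  -- the exceptional set
  have hx : (T'.card : ℝ) ≤ K * (R : ℝ) ^ (-(k * R)) * A'.card := by
    refine dbl_le n A' T' (fun v hv => (hmA v).2 (hTA ((hmT v).1 hv))) hc1 hc2 (fun v hv => ?_) (by omega)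
    have hvA := (hmA v).1 hv
    obtain ⟨-, h3⟩ := h F h2 n hn v (fun j => by
      rw [one_mul]
      exact_mod_cast hA1 v hvA j) 3 z hz R hR {s | hgt s ≤ n ∧ Function.update v 3 s ∈ T} (by
        rintro s ⟨hs1, hs2⟩
        refine ⟨hs1, ?_⟩
        rw [one_mul]
        exact hT _ hs2)
    refine le_trans ?_ h3
    rw [← Set.ncard_coe_finset]
    have e : ((((box_fin (F := F) n).toFinset.filter fun s => Function.update v 3 s ∈ T' :
        Finset (RatFunc F)) : Set (RatFunc F))) = {s | hgt s ≤ n ∧ Function.update v 3 s ∈ T} := by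
      ext s
      rw [Finset.mem_coe, Finset.mem_filter, Set.Finite.mem_toFinset, hmT]
      rfl
    rw [e]
  -- the singular equations
  set Z : Finset (Fin 5 → RatFunc F) := A'.filter fun v => (crv v).Δ = 0 with hZ
  have hZ1 : (Z.card : ℝ) ≤ 1 / 2 * A'.card := by
    refine dbl_le n A' Z (Finset.filter_subset _ _) hc1 hc2 (fun v hv => ?_) (by omega)
    obtain ⟨h3, h4⟩ := disc_le h2F v
    have h5 : (((box_fin (F := F) n).toFinset.filter fun s => Function.update v 3 s ∈ Z).card) ≤ 3 := by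
      rw [← Set.ncard_coe_finset]
      refine (Set.ncard_le_ncard ?_ h3).trans h4
      intro s hs
      rw [Finset.mem_coe, Finset.mem_filter, hZ, Finset.mem_filter] at hs
      exact hs.2.2
    have h6 : ((((box_fin (F := F) n).toFinset.filter fun s => Function.update v 3 s ∈ Z).card : ℕ) : ℝ) ≤ 3 := by
      exact_mod_cast h5
    have h7 : (14 : ℝ) ≤ (({x : RatFunc F | hgt x ≤ n}).ncard : ℝ) := by exact_mod_cast hN
    linarith
  have hG : (({v | v ∈ A ∧ (crv v).Δ ≠ 0}).ncard : ℝ) = ((A'.filter fun v => ¬ (crv v).Δ = 0).card : ℝ) := by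
    rw [← Set.ncard_coe_finset]
    congr 2
    ext v
    rw [Finset.mem_coe, Finset.mem_filter, hmA]
    rfl
  have hsum : (Z.card : ℝ) + ((A'.filter fun v => ¬ (crv v).Δ = 0).card : ℝ) = A'.card := by
    exact_mod_cast Finset.card_filter_add_card_filter_not (s := A') (fun v => (crv v).Δ = 0)
  have hTc : T.ncard = T'.card := Set.ncard_eq_toFinset_card _ hTfin
  rw [hTc, hG]
  have h8 : (A'.card : ℝ) ≤ 2 * ((A'.filter fun v => ¬ (crv v).Δ = 0).card : ℝ) := by linarith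
  have h9 : (0 : ℝ) ≤ K * (R : ℝ) ^ (-(k * R)) := by positivity
  calc (T'.card : ℝ) ≤ K * (R : ℝ) ^ (-(k * R)) * A'.card := hx
    _ ≤ K * (R : ℝ) ^ (-(k * R)) * (2 * ((A'.filter fun v => ¬ (crv v).Δ = 0).card : ℝ)) :=
        mul_le_mul_of_nonneg_left h8 h9
    _ = _ := by ring

end Pool.Agent.J4H77.RK.Ws
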